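import Pool.Agent.MP_c6cf52_lc.Tools
import Pool.Agent.MP_e258b5_gt.Defs
import Mathlib

section

namespace Pool.Agent.MP_e258b5_gt

open Pool.Agent.MP_c6cf52_lc Name Gen Set

/-! ### Definability -/

namespace UD

universe v

theorem sub (i j : ℕ) : UDef.{v} (fun _ E w => Sub E (w i) (w j)) := by
  unfold Sub
  repeat' first
    | exact UDef.mem _ _ | apply UDef.imp | apply UDef.all

theorem isFin (i j : ℕ) : UDef.{v} (fun _ E w => IsFin E (w i) (w j)) := by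
  unfold IsFin
  repeat' first
    | exact UDef.mem _ _ | exact UDef.isInj _ _ _ | apply UDef.and | apply UDef.ex

theorem isOpn (i j k : ℕ) : UDef.{v} (fun _ E w => IsOpn E (w i) (w j) (w k)) := by
  unfold IsOpn
  repeat' first
    | exact UDef.mem _ _ | exact sub _ _ | apply UDef.and | apply UDef.iff | apply UDef.imp
    | apply UDef.all | apply UDef.ex

theorem isCov (i j k : ℕ) : UDef.{v} (fun _ E w => IsCov E (w i) (w j) (w k)) := by
  unfold IsCov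
  repeat' first
    | exact UDef.mem _ _ | exact isOpn _ _ _ | apply UDef.and | apply UDef.imp
    | apply UDef.all | apply UDef.ex

theorem isOmegaCov (i j k : ℕ) : UDef.{v} (fun _ E w => IsOmegaCov E (w i) (w j) (w k)) := by
  unfold IsOmegaCov
  repeat' first
    | exact UDef.mem _ _ | exact isCov _ _ _ | exact sub _ _ | exact isFin _ _
    | apply UDef.and | apply UDef.not | apply UDef.imp | apply UDef.all | apply UDef.ex

theorem isGammaCov (i j k : ℕ) : UDef.{v} (fun _ E w => IsGammaCov E (w i) (w j) (w k)) := by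
  unfold IsGammaCov
  repeat' first
    | exact UDef.mem _ _ | exact isCov _ _ _ | exact isFin _ _
    | apply UDef.and | apply UDef.iff | apply UDef.not | apply UDef.imp | apply UDef.all
    | apply UDef.ex

theorem isUltra (i j : ℕ) : UDef.{v} (fun _ E w => IsUltra E (w i) (w j)) := by
  unfold IsUltra
  repeat' first
    | exact UDef.mem _ _ | exact sub _ _
    | apply UDef.and | apply UDef.or | apply UDef.iff | apply UDef.not | apply UDef.imp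
    | apply UDef.all | apply UDef.ex

theorem isPCov (i j k l : ℕ) : UDef.{v} (fun _ E w => IsPCov E (w i) (w j) (w k) (w l)) := by
  unfold IsPCov
  repeat' first
    | exact UDef.mem _ _ | exact isCov _ _ _ | exact UDef.isInj _ _ _ | exact UDef.app _ _ _
    | apply UDef.and | apply UDef.iff | apply UDef.imp | apply UDef.all | apply UDef.ex

end UD

variable {P : Type} [Preorder P] [OrderTop P] {g : Gen P}

noncomputable def nN (k : ℕ) : Name P := ordN natWf ⟨k⟩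

noncomputable def wN : Name P := setN natWf Set.univ

noncomputable def sN (S : Set ℕ) : Name P := setN natWf {n | n.down ∈ S}

theorem nN_mem (k : ℕ) : nN k ∈ g.N := nat_mem _

theorem wN_mem : wN ∈ g.N := g.omega_mem

theorem nN_inj {j k : ℕ} (h : g.v (nN j) = g.v (nN k)) : j = k :=
  congrArg ULift.down (ord_inj natWf natTri (nN_mem j) (nN_mem k) h)

theorem nN_lt {j k : ℕ} : g.E (g.v (nN j)) (g.v (nN k)) ↔ j < k :=
  ord_lt_iff natWf natTri (nN_mem j) (nN_mem k)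

theorem E_nN {k : ℕ} {x : g.M} : g.E x (g.v (nN k)) ↔ ∃ j < k, g.v (nN j) = x := by
  unfold nN
  rw [E_ordN natWf (nat_mem _)]
  exact ⟨fun ⟨y, h₁, _, h₂⟩ => ⟨y.down, h₁, h₂⟩, fun ⟨j, h₁, h₂⟩ => ⟨⟨j⟩, h₁, nat_mem _, h₂⟩⟩

theorem E_wN {x : g.M} : g.E x (g.v wN) ↔ ∃ k, g.v (nN k) = x := by
  unfold wN
  rw [E_setN natWf g.omega_mem]
  exact ⟨fun ⟨y, _, _, h₂⟩ => ⟨y.down, h₂⟩, fun ⟨j, h₂⟩ => ⟨⟨j⟩, trivial, nat_mem _, h₂⟩⟩

theorem nN_wN (k : ℕ) : g.E (g.v (nN k)) (g.v wN) := E_wN.2 ⟨k, rfl⟩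

theorem E_sN {S : Set ℕ} (h : sN S ∈ g.N) {x : g.M} :
    g.E x (g.v (sN S)) ↔ ∃ k ∈ S, g.v (nN k) = x := by
  unfold sN at h ⊢
  rw [E_setN natWf h]
  exact ⟨fun ⟨y, h₁, _, h₂⟩ => ⟨y.down, h₁, h₂⟩, fun ⟨j, h₁, h₂⟩ => ⟨⟨j⟩, h₁, nat_mem _, h₂⟩⟩

theorem nN_sN {S : Set ℕ} (h : sN S ∈ g.N) {k : ℕ} : g.E (g.v (nN k)) (g.v (sN S)) ↔ k ∈ S := by
  rw [E_sN h]
  exact ⟨fun ⟨j, h₁, h₂⟩ => nN_inj h₂ ▸ h₁, fun h₁ => ⟨k, h₁, rfl⟩⟩

theorem sN_sub {S : Set ℕ} (h : sN S ∈ g.N) : Sub g.E (g.v (sN S)) (g.v wN) := fun _ hx =>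
  let ⟨k, _, e⟩ := (E_sN h).1 hx
  E_wN.2 ⟨k, e⟩

theorem isOmega : IsOmega g.E (g.v wN) := by
  have succ : ∀ n y, g.E y (g.v (nN (n + 1))) ↔ g.E y (g.v (nN n)) ∨ y = g.v (nN n) := by
    intro n y
    rw [E_nN, E_nN]
    constructor
    · rintro ⟨m, hm, rfl⟩
      rcases Nat.lt_succ_iff_lt_or_eq.1 hm with h | rfl
      exacts [Or.inl ⟨m, h, rfl⟩, Or.inr rfl]
    · rintro (⟨m, hm, rfl⟩ | rfl)
      exacts [⟨m, Nat.lt_succ_of_lt hm, rfl⟩, ⟨n, Nat.lt_succ_self _, rfl⟩]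
  have zero : ∀ y, ¬ g.E y (g.v (nN 0)) := fun y hy => by simpa using E_nN.1 hy
  refine ⟨⟨⟨_, nN_wN 0, zero⟩, fun x hx => ?_⟩, ?_⟩
  · obtain ⟨n, rfl⟩ := E_wN.1 hx
    exact ⟨_, nN_wN (n + 1), succ n⟩
  · rintro a ⟨⟨e, he, h₀⟩, hs⟩ x hx
    obtain ⟨n, rfl⟩ := E_wN.1 hx
    clear hx
    induction n with
    | zero => exact (Gen.ext fun y => iff_of_false (h₀ y) (zero y) : e = _) ▸ he
    | succ n ih =>
      obtain ⟨s, h₁, h₂⟩ := hs _ ih
      exact (Gen.ext fun y => (h₂ y).trans (succ n y).symm : s = _) ▸ h₁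

/-! ### Finite sets -/

theorem exists_set {S : Set g.M} (hS : S.Finite) : ∃ a, ∀ x, g.E x a ↔ x ∈ S := by
  induction S, hS using Set.Finite.induction_on with
  | empty => exact ⟨_, fun x => iff_of_false (not_E_emp x) (notMem_empty x)⟩
  | @insert y S _ _ ih =>
    obtain ⟨a, ha⟩ := ih
    obtain ⟨b, hb⟩ := exists_upair y y
    obtain ⟨c, hc⟩ := exists_upair a b
    obtain ⟨d, hd⟩ := exists_union c
    refine ⟨d, fun x => (hd x).trans ⟨?_, ?_⟩⟩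
    · rintro ⟨z, h₁, h₂⟩
      rcases (hc z).1 h₂ with rfl | rfl
      · exact Or.inr ((ha x).1 h₁)
      · exact Or.inl (by simpa using (hb x).1 h₁)
    · rintro (rfl | h)
      · exact ⟨b, (hb x).2 (Or.inl rfl), (hc b).2 (Or.inr rfl)⟩
      · exact ⟨a, (ha x).2 h, (hc a).2 (Or.inl rfl)⟩

theorem isFin_iff {a : g.M} : IsFin g.E (g.v wN) a ↔ {x | g.E x a}.Finite := by
  constructor
  · rintro ⟨n, f, hn, hf, hinj⟩
    obtain ⟨n, rfl⟩ := E_wN.1 hn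
    have h₁ : {y | g.E y (g.v (nN n))}.Finite := ((finite_Iio n).image fun j => g.v (nN j)).subset
      fun y hy => E_nN.1 hy
    have : ∀ x : {x | g.E x a}, ∃ y : {y | g.E y (g.v (nN n))}, App g.E f x.1 y.1 := fun x =>
      let ⟨y, h₂, h₃⟩ := fun_ex hf x.2
      ⟨⟨y, h₂⟩, h₃⟩
    choose φ hφ using this
    have := h₁.to_subtype
    exact Finite.of_injective φ fun x x' e => Subtype.ext (hinj _ _ _ (hφ x) (e ▸ hφ x'))
  · intro h
    obtain ⟨n, ⟨e⟩⟩ := Finite.exists_equiv_fin {x | g.E x a} (h := h.to_subtype)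
    have := h.to_subtype
    obtain ⟨f, hf⟩ := exists_set (finite_range fun x : {x | g.E x a} => pr x.1 (g.v (nN (e x))))
    have happ : ∀ s t, App g.E f s t ↔ ∃ x : {x | g.E x a}, x.1 = s ∧ g.v (nN (e x)) = t := by
      intro s t
      rw [app_iff, hf]
      exact exists_congr fun x => pr_inj
    refine ⟨_, f, nN_wN n, ⟨fun p hp => ?_, fun x hx => ?_⟩, fun x x' b h₁ h₂ => ?_⟩
    · obtain ⟨x, rfl⟩ := (hf p).1 hp
      exact ⟨_, _, x.2, nN_lt.2 (e x).2, isPair_pr _ _⟩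
    · refine ⟨_, (happ _ _).2 ⟨⟨x, hx⟩, rfl, rfl⟩, fun y hy => ?_⟩
      obtain ⟨x', rfl, rfl⟩ := (happ _ _).1 hy
      rfl
    · obtain ⟨y, rfl, rfl⟩ := (happ _ _).1 h₁
      obtain ⟨y', rfl, e'⟩ := (happ _ _).1 h₂
      rw [e.injective (Fin.ext (nN_inj e'))]

/-! ### Dense sets -/

def denseN (D : Set P) : Name P := Name.mk D (fun _ => emp) (fun d => d.1)

theorem meets_below {D : Set P} (h : denseN D ∈ g.N) {q : P} (hq : q ∈ g.G)
    (dense : ∀ t ≤ q, ∃ t' ≤ t, t' ∈ D) : ∃ d ∈ D, d ∈ g.G := by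
  obtain ⟨r, hr, ρ, -, h' | ⟨i, hi, -⟩⟩ := g.meets 0 .bot 0 [emp, denseN D] (l2 g.emp_mem h)
  · obtain ⟨s, -, h₁, h₂⟩ := g.dir hq hr
    obtain ⟨t, ht, hD⟩ := dense s h₁
    refine absurd (FMem.of_feq (τ := denseN D) (j := ⟨t, hD⟩) le_rfl ?_) (h' t (ht.trans h₂))
    rw [feq_def]
    exact ⟨fun i => i.elim, fun i => i.elim⟩
  · exact ⟨i.1, i.2, g.up hr hi⟩

theorem dir_fin {ι : Type*} {S : Set ι} (hS : S.Finite) {Φ : ι → P → Prop}
    (mono : ∀ i p q, q ≤ p → Φ i p → Φ i q) (h : ∀ i ∈ S, ∃ p ∈ g.G, Φ i p) {q : P}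
    (hq : q ∈ g.G) : ∃ r ∈ g.G, r ≤ q ∧ ∀ i ∈ S, Φ i r := by
  induction S, hS using Set.Finite.induction_on with
  | empty => exact ⟨q, hq, le_rfl, by simp⟩
  | @insert j S _ _ ih =>
    obtain ⟨r, hr, h₁, h₂⟩ := ih fun i hi => h i (mem_insert_of_mem _ hi)
    obtain ⟨p, hp, h₃⟩ := h j (mem_insert _ _)
    obtain ⟨s, hs, h₄, h₅⟩ := g.dir hr hp
    refine ⟨s, hs, h₄.trans h₁, ?_⟩
    rintro i (rfl | hi)
    exacts [mono _ _ _ h₅ h₃, mono _ _ _ h₄ (h₂ i hi)]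

/-- The name of a set of natural numbers decided by conditions. -/
noncomputable def locN (Φ : P → ℕ → Prop) : Name P :=
  Name.mk {x : ℕ × P // Φ x.2 x.1} (fun x => nN x.1.1) (fun x => x.1.2)

theorem E_locN {Φ : P → ℕ → Prop} (h : locN Φ ∈ g.N) {x : g.M} :
    g.E x (g.v (locN Φ)) ↔ ∃ n, (∃ c ∈ g.G, Φ c n) ∧ g.v (nN n) = x := by
  rw [E_v h]
  exact ⟨fun ⟨⟨⟨n, c⟩, h₀⟩, h₁, _, h₂⟩ => ⟨n, ⟨c, h₁, h₀⟩, h₂⟩,
    fun ⟨n, ⟨c, h₁, h₀⟩, h₂⟩ => ⟨⟨(n, c), h₀⟩, h₁, nN_mem _, h₂⟩⟩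

theorem nN_locN {Φ : P → ℕ → Prop} (h : locN Φ ∈ g.N) {n : ℕ} :
    g.E (g.v (nN n)) (g.v (locN Φ)) ↔ ∃ c ∈ g.G, Φ c n := by
  rw [E_locN h]
  exact ⟨fun ⟨j, h₁, h₂⟩ => nN_inj h₂ ▸ h₁, fun h₁ => ⟨n, h₁, rfl⟩⟩

theorem locN_sub {Φ : P → ℕ → Prop} (h : locN Φ ∈ g.N) : Sub g.E (g.v (locN Φ)) (g.v wN) :=
  fun _ hx =>
  let ⟨k, _, e⟩ := (E_locN h).1 hx
  E_wN.2 ⟨k, e⟩

/-! ### Ultrafilters -/

/-- `S` contains a member of `p`. -/
def Big (p : g.M) (S : Set ℕ) : Prop := ∃ a, g.E a p ∧ ∀ n, g.E (g.v (nN n)) a → n ∈ S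

variable {p : g.M}

theorem Big.mono {S T : Set ℕ} (h : Big p S) (hST : S ⊆ T) : Big p T :=
  let ⟨a, h₁, h₂⟩ := h
  ⟨a, h₁, fun n hn => hST (h₂ n hn)⟩

variable (hp : IsUltra g.E (g.v wN) p)
include hp

theorem Big.inter {S T : Set ℕ} (h₁ : Big p S) (h₂ : Big p T) : Big p (S ∩ T) := by
  obtain ⟨a, ha, hS⟩ := h₁
  obtain ⟨b, hb, hT⟩ := h₂
  obtain ⟨c, hc⟩ := sep_udef (UDef.mem 0 1) [b] a
  exact ⟨c, hp.2.2.1 a b c ha hb hc, fun n hn => ⟨hS n ((hc _).1 hn).1, hT n ((hc _).1 hn).2⟩⟩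

theorem Big.nonempty {S : Set ℕ} (h : Big p S) : S.Nonempty := by
  obtain ⟨a, ha, hS⟩ := h
  obtain ⟨h₁, n, hn⟩ := hp.1 a ha
  obtain ⟨k, rfl⟩ := E_wN.1 (h₁ n hn)
  exact ⟨k, hS k hn⟩

theorem big_ne (k : ℕ) : Big p {n | n ≠ k} := by
  obtain ⟨a, ha, h⟩ := hp.2.2.2.2 _ (nN_wN k)
  exact ⟨a, ha, fun n hn e => h (e ▸ hn)⟩

theorem big_biInter {ι : Type*} {I : Set ι} (hI : I.Finite) {S : ι → Set ℕ}
    (h : ∀ i ∈ I, Big p (S i)) : Big p {n | ∀ i ∈ I, n ∈ S i} := by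
  induction I, hI using Set.Finite.induction_on with
  | empty => exact (big_ne hp 0).mono (by simp)
  | @insert j I _ _ ih =>
    refine ((h j (mem_insert _ _)).inter hp (ih fun i hi => h i (mem_insert_of_mem _ hi))).mono ?_
    rintro n ⟨h₁, h₂⟩ i (rfl | hi)
    exacts [h₁, h₂ i hi]

theorem big_ge (k : ℕ) : Big p {n | k ≤ n} :=
  (big_biInter hp (finite_Iio k) fun i _ => big_ne hp i).mono fun n hn =>
    show k ≤ n from not_lt.1 fun h => hn n h rfl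

theorem Big.mem {S : Set ℕ} (h : Big p S) {b : g.M} (hb : Sub g.E b (g.v wN))
    (hS : ∀ n ∈ S, g.E (g.v (nN n)) b) : g.E b p := by
  obtain ⟨a, ha, h⟩ := h
  refine hp.2.1 a b ha (fun x hx => ?_) hb
  obtain ⟨k, rfl⟩ := E_wN.1 ((hp.1 a ha).1 x hx)
  exact hS k (h k hx)

theorem big_or {b : g.M} (hb : Sub g.E b (g.v wN)) :
    g.E b p ∨ Big p {n | ¬ g.E (g.v (nN n)) b} := by
  obtain ⟨c, hc⟩ := sep_udef (UDef.mem 0 1).not [b] (g.v wN)
  exact (hp.2.2.2.1 b c hb hc).imp id fun h => ⟨c, h, fun n hn => ((hc _).1 hn).2⟩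

theorem big_part {M : ℕ} {D : ℕ → g.M} (hD : ∀ i < M, Sub g.E (D i) (g.v wN))
    (h : ∀ n, ∃ i < M, g.E (g.v (nN n)) (D i)) : ∃ i < M, g.E (D i) p := by
  by_contra hn
  push Not at hn
  obtain ⟨n, h₁⟩ := (big_biInter hp (finite_Iio M)
    fun i hi => (big_or hp (hD i hi)).resolve_left (hn i hi)).nonempty hp
  obtain ⟨i, hi, h₂⟩ := h n
  exact h₁ i hi h₂

end Pool.Agent.MP_e258b5_gt

end

section

namespace Pool.Agent.MP_e258b5_gt

open Set Filter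

/-- Rows of the Silver product. -/
abbrev K : Type := Set (Set ℕ)

/-- `y` meets almost all colour classes of `c` in a finite set. -/
def Good (y : Set ℕ) (c : ℕ → ℕ) : Prop := ∀ᶠ i in atTop, {n | n ∈ y ∧ c n = i}.Finite

theorem Good.of_finite {y : Set ℕ} (h : y.Finite) (c : ℕ → ℕ) : Good y c :=
  Eventually.of_forall fun _ => h.subset fun _ hn => hn.1

theorem Good.union {y z : Set ℕ} {c : ℕ → ℕ} (h₁ : Good y c) (h₂ : Good z c) : Good (y ∪ z) c := by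
  filter_upwards [h₁, h₂] with i a b
  refine (a.union b).subset ?_
  rintro n ⟨hn | hn, e⟩
  exacts [Or.inl ⟨hn, e⟩, Or.inr ⟨hn, e⟩]

theorem Good.mono {y z : Set ℕ} {c : ℕ → ℕ} (h : Good y c) (hz : z ⊆ y) : Good z c := by
  filter_upwards [h] with i a
  exact a.subset fun n hn => ⟨hz hn.1, hn.2⟩

theorem Good.biUnion {ι : Type*} {S : Set ι} (hS : S.Finite) {y : ι → Set ℕ} {c : ℕ → ℕ}
    (h : ∀ i ∈ S, Good (y i) c) : Good (⋃ i ∈ S, y i) c := by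
  induction S, hS using Set.Finite.induction_on with
  | empty => simpa using Good.of_finite finite_empty c
  | insert _ _ ih =>
    rw [biUnion_insert]
    exact (h _ (mem_insert _ _)).union (ih fun i hi => h i (mem_insert_of_mem _ hi))

/-- The basic colouring. -/
def c0 (n : ℕ) : ℕ := n.unpair.1

theorem Good.ne_univ {y : Set ℕ} (h : Good y c0) : ∃ n, n ∉ y := by
  by_contra hn
  push Not at hn
  obtain ⟨i, hi⟩ := h.exists
  refine (infinite_of_injective_forall_mem (f := fun m => Nat.pair i m) ?_ ?_) hi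
  · intro a b e
    simpa using e
  · intro m
    exact ⟨hn _, by simp [c0]⟩

/-- Conditions. -/
structure Cond where
  Y : Set (Set ℕ)
  A : Set (ℕ → ℕ)
  s : K × ℕ → Option Bool
  hY : Y.Countable
  hA : A.Countable
  hfin : ∀ y : Set ℕ, y.Finite → y ∈ Y
  hgood : ∀ y ∈ Y, Good y c0
  hs : {α | ∃ n, s (α, n) ≠ none}.Countable
  hfree : ∀ α, {n | s (α, n) = none}.Infinite

structure CLe (q p : Cond) : Prop where
  Y : p.Y ⊆ q.Y
  A : p.A ⊆ q.A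
  good : ∀ y ∈ q.Y, y ∉ p.Y → ∀ c ∈ p.A, Good y c
  s : ∀ z b, p.s z = some b → q.s z = some b

instance : Preorder Cond where
  le := CLe
  le_refl _ := ⟨subset_rfl, subset_rfl, fun _ h h' => absurd h h', fun _ _ h => h⟩
  le_trans r q p h₁ h₂ := ⟨h₂.Y.trans h₁.Y, h₂.A.trans h₁.A, fun y hy hy' c hc => by
    by_cases h : y ∈ q.Y
    · exact h₂.good y h hy' c hc
    · exact h₁.good y hy h c (h₂.A hc), fun z b h => h₁.s z b (h₂.s z b h)⟩

theorem le_def {q p : Cond} : q ≤ p ↔ CLe q p := Iff.rfl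

instance : OrderTop Cond where
  top := ⟨{y | y.Finite}, ∅, fun _ => none, Set.Countable.ofPred_finite,
    countable_empty, fun _ h => h, fun _ h => Good.of_finite h _, by simp,
    fun _ => by simpa using infinite_univ⟩
  le_top p := ⟨fun y hy => p.hfin y hy, empty_subset _, fun _ _ _ _ h => h.elim,
    fun _ _ h => by simp at h⟩

namespace Cond

def supp (r : Cond) : Set K := {α | ∃ n, r.s (α, n) ≠ none}

theorem none_of_le {q p : Cond} (h : q ≤ p) {z : K × ℕ} (hz : q.s z = none) : p.s z = none := by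
  cases e : p.s z with
  | none => rfl
  | some b => rw [h.s z b e] at hz; exact absurd hz (by simp)

theorem ne_none_of_le {q p : Cond} (h : q ≤ p) {z : K × ℕ} (hz : p.s z ≠ none) : q.s z ≠ none :=
  fun e => hz (none_of_le h e)

theorem eq_of_le {q p : Cond} (h : q ≤ p) {z : K × ℕ} (hz : p.s z ≠ none) : q.s z = p.s z := by
  cases e : p.s z with
  | none => exact absurd e hz
  | some b => exact h.s z b e

theorem supp_mono {q p : Cond} (h : q ≤ p) : p.supp ⊆ q.supp :=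
  fun _ ⟨n, hn⟩ => ⟨n, ne_none_of_le h hn⟩

open Classical in
/-- Fill the free points of `D` with the values `v`. -/
noncomputable def ovr (r : Cond) (D : Set (K × ℕ)) (v : K × ℕ → Bool)
    (h₁ : (Prod.fst '' D).Countable) (h₂ : ∀ α, {n | (α, n) ∈ D}.Finite) : Cond where
  Y := r.Y
  A := r.A
  s := fun z => if r.s z = none ∧ z ∈ D then some (v z) else r.s z
  hY := r.hY
  hA := r.hA
  hfin := r.hfin
  hgood := r.hgood
  hs := (r.hs.union h₁).mono (by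
    rintro α ⟨n, hn⟩
    by_cases h : r.s (α, n) = none ∧ (α, n) ∈ D
    · exact Or.inr ⟨_, h.2, rfl⟩
    · simp only [if_neg h] at hn
      exact Or.inl ⟨n, hn⟩)
  hfree := fun α => ((r.hfree α).sdiff (h₂ α)).mono (by
    rintro n ⟨h, h'⟩
    have : ¬ (r.s (α, n) = none ∧ (α, n) ∈ D) := fun e => h' e.2
    simp only [mem_ofPred_eq, if_neg this]
    exact h)

section ovr

variable {r : Cond} {D : Set (K × ℕ)} {v : K × ℕ → Bool} {h₁ : (Prod.fst '' D).Countable}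
  {h₂ : ∀ α, {n | (α, n) ∈ D}.Finite}

theorem ovr_s_free {z : K × ℕ} (h : r.s z = none) (hz : z ∈ D) :
    (r.ovr D v h₁ h₂).s z = some (v z) := by
  simp [ovr, h, hz]

theorem ovr_s_some {z : K × ℕ} (h : r.s z ≠ none) : (r.ovr D v h₁ h₂).s z = r.s z := by
  simp [ovr, h]

theorem ovr_s_not {z : K × ℕ} (h : z ∉ D) : (r.ovr D v h₁ h₂).s z = r.s z := by
  simp [ovr, h]

theorem ovr_le : r.ovr D v h₁ h₂ ≤ r :=
  ⟨subset_rfl, subset_rfl, fun _ h h' => absurd h h', fun z b h => by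
    rw [ovr_s_some (by simp [h]), h]⟩

theorem ovr_ne_none {z : K × ℕ} (hz : z ∈ D) : (r.ovr D v h₁ h₂).s z ≠ none := by
  by_cases h : r.s z = none
  · rw [ovr_s_free h hz]; simp
  · rw [ovr_s_some h]; exact h

theorem le_ovr {t : Cond} (ht : t ≤ r) (h : ∀ z ∈ D, r.s z = none → t.s z = some (v z)) :
    t ≤ r.ovr D v h₁ h₂ :=
  ⟨ht.Y, ht.A, ht.good, fun z b e => by
    by_cases h₀ : r.s z = none
    · by_cases hz : z ∈ D
      · rw [ovr_s_free h₀ hz] at e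
        rw [← e]; exact h z hz h₀
      · rw [ovr_s_not hz, h₀] at e
        simp at e
    · rw [ovr_s_some h₀] at e
      exact ht.s z b e⟩

end ovr

theorem fin_rows (F : Finset (K × ℕ)) (α : K) : {n | (α, n) ∈ (F : Set (K × ℕ))}.Finite :=
  (F.finite_toSet.image Prod.snd).subset fun _ hn => ⟨_, hn, rfl⟩

open Classical in
/-- Fill the finite set `F`, with value true exactly on `σ`. -/
noncomputable def fill (r : Cond) (F σ : Finset (K × ℕ)) : Cond :=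
  r.ovr F (fun z => decide (z ∈ σ)) (F.finite_toSet.image _).countable (fin_rows F)

theorem fill_le (r : Cond) (F σ : Finset (K × ℕ)) : r.fill F σ ≤ r := ovr_le

open Classical in
/-- Free the points of `F`. -/
noncomputable def erase (r : Cond) (F : Finset (K × ℕ)) : Cond where
  Y := r.Y
  A := r.A
  s := fun z => if z ∈ F then none else r.s z
  hY := r.hY
  hA := r.hA
  hfin := r.hfin
  hgood := r.hgood
  hs := r.hs.mono (by
    rintro α ⟨n, hn⟩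
    refine ⟨n, fun e => hn ?_⟩
    simp [e])
  hfree := fun α => (r.hfree α).mono (by
    intro n h
    simp only [mem_ofPred_eq] at h ⊢
    simp [h])

def Free (r : Cond) (F : Finset (K × ℕ)) : Prop := ∀ z ∈ F, r.s z = none

def LeF (F : Finset (K × ℕ)) (q p : Cond) : Prop := q ≤ p ∧ q.Free F

theorem fill_s {r : Cond} {F σ : Finset (K × ℕ)} (h : r.Free F) {z : K × ℕ} (hz : z ∈ F) :
    (r.fill F σ).s z = some true ↔ z ∈ σ := by
  unfold fill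
  rw [ovr_s_free (h z hz) (by simpa using hz)]
  simp

theorem fill_mono {q p : Cond} {F : Finset (K × ℕ)} (h : LeF F q p) (σ : Finset (K × ℕ)) :
    q.fill F σ ≤ p.fill F σ :=
  le_ovr ((fill_le q F σ).trans h.1) fun z hz _ => ovr_s_free (h.2 z hz) hz

theorem erase_leF {r t : Cond} {F : Finset (K × ℕ)} (hr : r.Free F) (ht : t ≤ r) :
    LeF F (t.erase F) r := by
  refine ⟨⟨ht.Y, ht.A, ht.good, fun z b e => ?_⟩, fun z hz => by simp [erase, hz]⟩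
  have : z ∉ F := fun hz => by rw [hr z hz] at e; simp at e
  simp only [erase, if_neg this]
  exact ht.s z b e

theorem fill_erase_le {r t : Cond} {F σ : Finset (K × ℕ)} (hr : r.Free F)
    (ht : t ≤ r.fill F σ) : (t.erase F).fill F σ ≤ t := by
  refine ⟨subset_rfl, subset_rfl, fun _ h h' => absurd h h', fun z b e => ?_⟩
  by_cases hz : z ∈ F
  · have h₁ : (t.erase F).s z = none := by simp [erase, hz]
    have h₂ := ht.s z _ (ovr_s_free (hr z hz) (by simpa using hz))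
    unfold fill
    rw [ovr_s_free h₁ (by simpa using hz), ← e, h₂]
  · unfold fill
    rw [ovr_s_not (by simpa using hz)]
    simp [erase, hz, e]

theorem amalg (F : Finset (K × ℕ)) (S : Finset (Finset (K × ℕ)))
    (D : Finset (K × ℕ) → Cond → Prop) (mono : ∀ σ p q, q ≤ p → D σ p → D σ q) (r : Cond)
    (hr : r.Free F) (dense : ∀ σ ∈ S, ∀ t ≤ r.fill F σ, ∃ t' ≤ t, D σ t') :
    ∃ r', LeF F r' r ∧ ∀ σ ∈ S, D σ (r'.fill F σ) := by
  classical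
  induction S using Finset.induction_on with
  | empty => exact ⟨r, ⟨le_rfl, hr⟩, by simp⟩
  | insert σ S _ ih =>
    obtain ⟨r₁, h₁, H₁⟩ := ih fun τ hτ => dense τ (Finset.mem_insert_of_mem hτ)
    obtain ⟨t, ht, hD⟩ := dense σ (Finset.mem_insert_self _ _) _ (fill_mono h₁ σ)
    have h₂ := erase_leF h₁.2 (ht.trans (fill_le _ _ _))
    refine ⟨t.erase F, ⟨h₂.1.trans h₁.1, h₂.2⟩, fun τ hτ => ?_⟩
    rcases Finset.mem_insert.1 hτ with rfl | hτ
    · exact mono _ _ _ (fill_erase_le h₁.2 ht) hD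
    · exact mono _ _ _ (fill_mono h₂ τ) (H₁ τ hτ)

open Classical in
theorem le_fill {r t : Cond} {F : Finset (K × ℕ)} (ht : t ≤ r) (hF : ∀ z ∈ F, t.s z ≠ none) :
    t ≤ r.fill F (F.filter fun z => t.s z = some true) := by
  refine le_ovr ht fun z hz _ => ?_
  have hz' : z ∈ F := by simpa using hz
  cases e : t.s z with
  | none => exact absurd e (hF z hz')
  | some b => cases b <;> simp [hz', e]

theorem exists_dec (t : Cond) (F : Finset (K × ℕ)) : ∃ t' ≤ t, ∀ z ∈ F, t'.s z ≠ none :=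
  ⟨t.fill F ∅, fill_le _ _ _, fun _ hz => ovr_ne_none (by simpa using hz)⟩

theorem cover {r t : Cond} (F : Finset (K × ℕ)) (ht : t ≤ r) :
    ∃ σ ∈ F.powerset, ∃ t' ≤ t, t' ≤ r.fill F σ := by
  classical
  obtain ⟨t', h, hF⟩ := exists_dec t F
  exact ⟨_, Finset.mem_powerset.2 (Finset.filter_subset _ _), t', h, le_fill (h.trans ht) hF⟩

theorem fill_unique {r t : Cond} {F σ τ : Finset (K × ℕ)} (hr : r.Free F) (hσ : σ ∈ F.powerset)
    (hτ : τ ∈ F.powerset) (h₁ : t ≤ r.fill F σ) (h₂ : t ≤ r.fill F τ) : σ = τ := by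
  have key : ∀ {σ : Finset (K × ℕ)}, t ≤ r.fill F σ → ∀ z ∈ F, (t.s z = some true ↔ z ∈ σ) := by
    intro σ h z hz
    rw [← fill_s hr hz, eq_of_le h (ovr_ne_none (by simpa using hz))]
  ext z
  constructor
  · intro hz
    have hF := Finset.mem_powerset.1 hσ hz
    exact (key h₂ z hF).1 ((key h₁ z hF).2 hz)
  · intro hz
    have hF := Finset.mem_powerset.1 hτ hz
    exact (key h₁ z hF).1 ((key h₂ z hF).2 hz)

def addA (r : Cond) (c : ℕ → ℕ) : Cond where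
  Y := r.Y
  A := insert c r.A
  s := r.s
  hY := r.hY
  hA := r.hA.insert c
  hfin := r.hfin
  hgood := r.hgood
  hs := r.hs
  hfree := r.hfree

theorem addA_le (r : Cond) (c : ℕ → ℕ) : r.addA c ≤ r :=
  ⟨subset_rfl, subset_insert _ _, fun _ h h' => absurd h h', fun _ _ h => h⟩

def addY (r : Cond) (y : Set ℕ) (hy : Good y c0) : Cond where
  Y := insert y r.Y
  A := r.A
  s := r.s
  hY := r.hY.insert y
  hA := r.hA
  hfin := fun z hz => Or.inr (r.hfin z hz)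
  hgood := by
    rintro z (rfl | hz)
    exacts [hy, r.hgood z hz]
  hs := r.hs
  hfree := r.hfree

theorem addY_le (r : Cond) {y : Set ℕ} (hy : Good y c0) (h : ∀ c ∈ r.A, Good y c) :
    r.addY y hy ≤ r :=
  ⟨subset_insert _ _, subset_rfl, by
    rintro z (rfl | hz) hz' c hc
    exacts [h c hc, absurd hz hz'], fun _ _ h => h⟩

end Cond

/-- Bookkeeping recursion. -/
theorem book {S T : Type*} (tasks : S → Set T) (hc : ∀ s, (tasks s).Countable)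
    (R : ℕ → S → Finset T → S → Prop)
    (step : ∀ k s (L : Finset T), ↑L ⊆ tasks s → ∃ s', R k s L s' ∧ tasks s ⊆ tasks s') (s₀ : S) :
    ∃ (s : ℕ → S) (L : ℕ → Finset T), s 0 = s₀ ∧ (∀ k, R k (s k) (L k) (s (k + 1))) ∧
      ∀ k, ∀ t ∈ tasks (s k), ∀ᶠ m in atTop, t ∈ L m := by
  classical
  have he : ∀ s, ∃ e : ℕ → Finset T, (∀ n, ↑(e n) ⊆ tasks s) ∧
      ∀ t ∈ tasks s, ∀ᶠ n in atTop, t ∈ e n := by
    intro s
    rcases (tasks s).eq_empty_or_nonempty with h | h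
    · exact ⟨fun _ => ∅, by simp, by simp [h]⟩
    · obtain ⟨f, hf⟩ := (hc s).exists_eq_range h
      refine ⟨fun n => (Finset.range n).image f, fun n => ?_, fun t ht => ?_⟩
      · intro t ht
        obtain ⟨i, -, rfl⟩ := Finset.mem_image.1 ht
        rw [hf]; exact mem_range_self i
      · rw [hf] at ht
        obtain ⟨i, rfl⟩ := ht
        filter_upwards [eventually_gt_atTop i] with n hn
        exact Finset.mem_image.2 ⟨i, Finset.mem_range.2 hn, rfl⟩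
  choose e he₁ he₂ using he
  let H := {p : S × List S // ∀ h ∈ p.2, tasks h ⊆ tasks p.1}
  let LL : ℕ → H → Finset T := fun k p => (p.1.1 :: p.1.2).toFinset.biUnion (e · k)
  have hLL : ∀ k p, ↑(LL k p) ⊆ tasks p.1.1 := by
    intro k p t ht
    obtain ⟨h, hh, ht⟩ := Finset.mem_biUnion.1 ht
    rcases List.mem_cons.1 (List.mem_toFinset.1 hh) with rfl | hh
    · exact he₁ _ _ ht
    · exact p.2 h hh (he₁ _ _ ht)
  choose nx h₁ h₂ using fun k (p : H) => step k p.1.1 (LL k p) (hLL k p)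
  let st : ℕ → H → H := fun k p => ⟨(nx k p, p.1.1 :: p.1.2), by
    intro h hh
    rcases List.mem_cons.1 hh with rfl | hh
    · exact h₂ k p
    · exact (p.2 h hh).trans (h₂ k p)⟩
  let P : ℕ → H := fun k => Nat.rec ⟨(s₀, []), by simp⟩ st k
  have hP : ∀ k, P (k + 1) = st k (P k) := fun _ => rfl
  refine ⟨fun k => (P k).1.1, fun k => LL k (P k), rfl, fun k => h₁ k (P k), fun k t ht => ?_⟩
  have hm : ∀ m, k ≤ m → (P k).1.1 ∈ (P m).1.1 :: (P m).1.2 := by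
    intro m hm
    induction m, hm using Nat.le_induction with
    | base => exact List.mem_cons_self
    | succ m _ ih => rw [hP]; exact List.mem_cons_of_mem _ ih
  filter_upwards [he₂ _ t ht, eventually_ge_atTop k] with m a b
  exact Finset.mem_biUnion.2 ⟨_, List.mem_toFinset.2 (hm m b), a⟩

open Cond

/-- A lower bound of a fusion sequence. -/
theorem exists_limit (r : ℕ → Cond) (hr : Antitone r)
    (hfree : ∀ k, ∀ α ∈ (r k).supp, ∀ m, ∃ n ≥ m, ∀ j, (r j).s (α, n) = none) :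
    ∃ q : Cond, (∀ k, q ≤ r k) ∧ q.Y = ⋃ k, (r k).Y ∧ q.A = ⋃ k, (r k).A := by
  classical
  let s : K × ℕ → Option Bool := fun z =>
    if h : ∃ k, (r k).s z ≠ none then (r h.choose).s z else none
  have hs : ∀ k z b, (r k).s z = some b → s z = some b := by
    intro k z b e
    have h : ∃ k, (r k).s z ≠ none := ⟨k, by simp [e]⟩
    simp only [s, dif_pos h]
    rcases le_total k h.choose with h' | h'
    · exact (hr h').s z b e
    · rw [← eq_of_le (hr h') h.choose_spec, e]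
  have hn : ∀ z, (∀ k, (r k).s z = none) → s z = none := by
    intro z h
    have : ¬ ∃ k, (r k).s z ≠ none := by simpa using h
    simp only [s, dif_neg this]
  refine ⟨⟨⋃ k, (r k).Y, ⋃ k, (r k).A, s, countable_iUnion fun k => (r k).hY,
    countable_iUnion fun k => (r k).hA, fun y hy => mem_iUnion.2 ⟨0, (r 0).hfin y hy⟩,
    fun y hy => ?_, ?_, fun α => ?_⟩, fun k => ⟨subset_iUnion (fun k => (r k).Y) k,
    subset_iUnion (fun k => (r k).A) k, fun y hy hy' c hc => ?_, hs k⟩, rfl, rfl⟩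
  · obtain ⟨k, hk⟩ := mem_iUnion.1 hy
    exact (r k).hgood y hk
  · refine (countable_iUnion fun k => (r k).hs).mono ?_
    rintro α ⟨n, h⟩
    by_contra h'
    refine h (hn _ fun k => ?_)
    by_contra h''
    exact h' (mem_iUnion.2 ⟨k, n, h''⟩)
  · by_cases h : ∃ k, α ∈ (r k).supp
    · obtain ⟨k, hk⟩ := h
      refine Set.infinite_of_forall_exists_gt fun m => ?_
      obtain ⟨n, h₁, h₂⟩ := hfree k α hk (m + 1)
      exact ⟨n, hn _ h₂, h₁⟩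
    · refine infinite_univ.mono fun n _ => hn _ fun k => ?_
      by_contra h'
      exact h ⟨k, n, h'⟩
  · obtain ⟨j, hj⟩ := mem_iUnion.1 hy
    exact (hr (le_max_left k j)).good y ((hr (le_max_right k j)).Y hj) hy' c hc

theorem exists_newF (r : Cond) (F : Finset (K × ℕ)) (hF : r.Free F) (L : Finset K) (k : ℕ) :
    ∃ F', F ⊆ F' ∧ r.Free F' ∧ ∀ α ∈ L, ∃ n ≥ k, (α, n) ∈ F' := by
  classical
  have : ∀ α, ∃ n ≥ k, r.s (α, n) = none := fun α => by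
    obtain ⟨n, h₁, h₂⟩ := (r.hfree α).exists_gt k
    exact ⟨n, h₂.le, h₁⟩
  choose f h₁ h₂ using this
  refine ⟨F ∪ L.image fun α => (α, f α), Finset.subset_union_left, fun z hz => ?_,
    fun α hα => ⟨f α, h₁ α, Finset.mem_union_right _ (Finset.mem_image_of_mem _ hα)⟩⟩
  rcases Finset.mem_union.1 hz with hz | hz
  · exact hF z hz
  · obtain ⟨α, -, rfl⟩ := Finset.mem_image.1 hz
    exact h₂ α

/-- The fusion lemma. -/
theorem fusion {St : Type*} (Inv : St → Cond → Prop)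
    (R : ℕ → St → Finset (K × ℕ) → Finset (Set ℕ) → Finset (ℕ → ℕ) → St → Cond → Prop)
    (step : ∀ k st r F (LY : Finset (Set ℕ)) (LA : Finset (ℕ → ℕ)), Inv st r → r.Free F →
      ↑LY ⊆ r.Y → ∃ st' r', LeF F r' r ∧ Inv st' r' ∧ R k st F LY LA st' r')
    (st₀ : St) (r₀ : Cond) (h₀ : Inv st₀ r₀) :
    ∃ (st : ℕ → St) (r : ℕ → Cond) (F : ℕ → Finset (K × ℕ)) (LY : ℕ → Finset (Set ℕ))
      (LA : ℕ → Finset (ℕ → ℕ)) (q : Cond), st 0 = st₀ ∧ q ≤ r₀ ∧ (∀ k, q ≤ r k) ∧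
      (∀ k, R k (st k) (F k) (LY k) (LA k) (st (k + 1)) (r (k + 1))) ∧
      (∀ k, (r (k + 1)).Free (F k)) ∧
      (∀ y ∈ q.Y, ∀ᶠ k in atTop, y ∈ LY k) ∧ (∀ c ∈ q.A, ∀ᶠ k in atTop, c ∈ LA k) := by
  classical
  let S := {x : St × Cond × Finset (K × ℕ) // Inv x.1 x.2.1 ∧ x.2.1.Free x.2.2}
  let T := K ⊕ Set ℕ ⊕ (ℕ → ℕ)
  let iY : Set ℕ → T := fun y => Sum.inr (Sum.inl y)
  let iA : (ℕ → ℕ) → T := fun c => Sum.inr (Sum.inr c)
  have hY : Function.Injective iY := Sum.inr_injective.comp Sum.inl_injective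
  have hA : Function.Injective iA := Sum.inr_injective.comp Sum.inr_injective
  let tasks : S → Set T := fun x =>
    Sum.inl '' x.1.2.1.supp ∪ (iY '' x.1.2.1.Y ∪ iA '' x.1.2.1.A)
  obtain ⟨s, L, hs₀, hR, hL⟩ := book tasks
    (fun x => (x.1.2.1.hs.image _).union ((x.1.2.1.hY.image _).union (x.1.2.1.hA.image _)))
    (fun k x L x' => x.1.2.2 ⊆ x'.1.2.2 ∧ (∀ α, Sum.inl α ∈ L → ∃ n ≥ k, (α, n) ∈ x'.1.2.2) ∧
      x'.1.2.1 ≤ x.1.2.1 ∧
      R k x.1.1 x'.1.2.2 (L.preimage iY hY.injOn) (L.preimage iA hA.injOn) x'.1.1 x'.1.2.1)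
    (by
      rintro k ⟨⟨st, r, F⟩, hI, hF⟩ L hL
      obtain ⟨F', h₁, h₂, h₃⟩ := exists_newF r F hF (L.preimage Sum.inl Sum.inl_injective.injOn) k
      obtain ⟨st', r', h₄, h₅, h₆⟩ := step k st r F' (L.preimage iY hY.injOn)
        (L.preimage iA hA.injOn) hI h₂ (by
          intro y hy
          have := hL (Finset.mem_preimage.1 hy)
          rcases this with ⟨_, -, e⟩ | ⟨y', h, e⟩ | ⟨_, -, e⟩
          · exact absurd e Sum.inl_ne_inr
          · exact hY e ▸ h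
          · exact absurd (Sum.inr_injective e) Sum.inr_ne_inl)
      refine ⟨⟨(st', r', F'), h₅, h₄.2⟩, ⟨h₁, fun α hα => h₃ α (Finset.mem_preimage.2 hα),
        h₄.1, h₆⟩, ?_⟩
      exact union_subset_union (image_mono (supp_mono h₄.1))
        (union_subset_union (image_mono h₄.1.Y) (image_mono h₄.1.A)))
    ⟨(st₀, r₀, ∅), h₀, by simp [Free]⟩
  have anti : Antitone fun k => (s k).1.2.1 := antitone_nat_of_succ_le fun k => (hR k).2.2.1
  have monoF : Monotone fun k => (s k).1.2.2 := monotone_nat_of_le_succ fun k => (hR k).1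
  obtain ⟨q, hq, eY, eA⟩ := exists_limit (fun k => (s k).1.2.1) anti (by
    intro k α hα m
    obtain ⟨j, h₁, h₂⟩ := ((hL k (Sum.inl α) (Or.inl ⟨α, hα, rfl⟩)).and
      (eventually_ge_atTop m)).exists
    obtain ⟨n, hn, hF⟩ := (hR j).2.1 α h₁
    refine ⟨n, le_trans h₂ hn, fun i => ?_⟩
    exact none_of_le (anti (le_max_left i (j + 1)))
      ((s (max i (j + 1))).2.2 _ (monoF (le_max_right i (j + 1)) hF)))
  refine ⟨fun k => (s k).1.1, fun k => (s k).1.2.1, fun k => (s (k + 1)).1.2.2,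
    fun k => (L k).preimage iY hY.injOn, fun k => (L k).preimage iA hA.injOn, q,
    by simp [hs₀], by simpa [hs₀] using hq 0, hq, fun k => (hR k).2.2.2,
    fun k => (s (k + 1)).2.2, fun y hy => ?_, fun c hc => ?_⟩
  · rw [eY] at hy
    obtain ⟨k, hk⟩ := mem_iUnion.1 hy
    filter_upwards [hL k (iY y) (Or.inr (Or.inl ⟨y, hk, rfl⟩))] with m hm
    exact Finset.mem_preimage.2 hm
  · rw [eA] at hc
    obtain ⟨k, hk⟩ := mem_iUnion.1 hc
    filter_upwards [hL k (iA c) (Or.inr (Or.inr ⟨c, hk, rfl⟩))] with m hm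
    exact Finset.mem_preimage.2 hm

end Pool.Agent.MP_e258b5_gt

end

section

namespace Pool.Agent.MP_e258b5_gt

open Set Filter Cond Cardinal

/-- The forcing is bounding. -/
theorem bound (Φ : ℕ → ℕ → Cond → Prop) (m₁ : ∀ i m m' t, m ≤ m' → Φ i m t → Φ i m' t)
    (m₂ : ∀ i m t t', t' ≤ t → Φ i m t → Φ i m t') (r : Cond)
    (dense : ∀ i, ∀ t ≤ r, ∃ t' ≤ t, ∃ m, Φ i m t') :
    ∃ q ≤ r, ∃ g : ℕ → ℕ, ∀ i, ∀ t ≤ q, ∃ t' ≤ t, Φ i (g i) t' := by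
  classical
  obtain ⟨st, r', F, LY, LA, q, -, hq, hq', hR, -⟩ := fusion (St := ℕ) (fun _ t => t ≤ r)
    (fun k _ _ _ _ m t => ∀ u ≤ t, ∃ u' ≤ u, Φ k m u') (by
      intro k _ t F _ _ ht hF _
      obtain ⟨t', h₁, h₂⟩ := amalg F F.powerset (fun _ u => ∃ m, Φ k m u)
        (fun _ _ _ h ⟨m, hm⟩ => ⟨m, m₂ _ _ _ _ h hm⟩) t hF
        fun σ _ u hu => dense k u (hu.trans ((fill_le _ _ _).trans ht))
      choose! m hm using h₂
      refine ⟨F.powerset.sup m, t', h₁, h₁.1.trans ht, fun u hu => ?_⟩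
      obtain ⟨σ, hσ, u', h₃, h₄⟩ := cover F hu
      exact ⟨u', h₃, m₁ _ _ _ _ (Finset.le_sup hσ) (m₂ _ _ _ _ h₄ (hm σ hσ))⟩) 0 r le_rfl
  exact ⟨q, hq, fun i => st (i + 1), fun i t ht => hR i t (ht.trans (hq' _))⟩

section Tall

variable (In : Cond → ℕ → Prop)

/-- `t` forces that the generic set meets `Z` in an infinite set. -/
def BigIn (t : Cond) (Z : Set ℕ) : Prop := ∀ m, ∀ u ≤ t, ∃ u' ≤ u, ∃ n ∈ Z, m ≤ n ∧ In u' n

variable {In}

theorem BigIn.mono {t t' : Cond} {Z Z' : Set ℕ} (h : BigIn In t Z) (ht : t' ≤ t) (hZ : Z ⊆ Z') :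
    BigIn In t' Z' := fun m u hu =>
  let ⟨u', h₁, n, h₂, h₃⟩ := h m u (hu.trans ht)
  ⟨u', h₁, n, hZ h₂, h₃⟩

variable (mono : ∀ t t' n, t' ≤ t → In t n → In t' n)
include mono

theorem refine_one {t : Cond} {Z : Set ℕ} (h : BigIn In t Z) (c : ℕ → ℕ) :
    ∃ t' ≤ t, ∃ Z' ⊆ Z, BigIn In t' Z' ∧ Good Z' c := by
  by_cases h₁ : ∃ i, ∃ t' ≤ t, BigIn In t' {n | n ∈ Z ∧ c n = i}
  · obtain ⟨i, t', ht, hB⟩ := h₁
    refine ⟨t', ht, _, fun n hn => hn.1, hB, ?_⟩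
    filter_upwards [eventually_gt_atTop i] with j hj
    refine finite_empty.subset ?_
    rintro n ⟨⟨-, e⟩, e'⟩
    omega
  · push Not at h₁
    obtain ⟨q, hq, g, hg⟩ := bound
      (fun i m u => ∀ u' ≤ u, ∀ n ∈ Z, c n = i → m ≤ n → ¬ In u' n)
      (fun i m m' t hm h u hu n hn e h' => h u hu n hn e (hm.trans h'))
      (fun i m t t' ht h u hu => h u (hu.trans ht)) t (by
        intro i u hu
        have := h₁ i u hu
        simp only [BigIn, not_forall, not_exists, not_and] at this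
        obtain ⟨m, u', hu', H⟩ := this
        exact ⟨u', hu', m, fun v hv n hn e h' => H v hv n ⟨hn, e⟩ h'⟩)
    refine ⟨q, hq, {n | n ∈ Z ∧ n < g (c n)}, fun n hn => hn.1, fun m u hu => ?_,
      Eventually.of_forall fun i => (finite_Iio (g i)).subset ?_⟩
    · obtain ⟨u', h₂, n, h₃, h₄, h₅⟩ := h m u (hu.trans hq)
      refine ⟨u', h₂, n, ⟨h₃, ?_⟩, h₄, h₅⟩
      by_contra h₆
      obtain ⟨v, hv, H⟩ := hg (c n) u' (h₂.trans hu)
      exact H v le_rfl n h₃ rfl (not_lt.1 h₆) (mono _ _ _ hv h₅)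
    · rintro n ⟨⟨-, h₂⟩, rfl⟩
      exact h₂

theorem refine_fin {t : Cond} {Z : Set ℕ} (h : BigIn In t Z) (L : Finset (ℕ → ℕ)) :
    ∃ t' ≤ t, ∃ Z' ⊆ Z, BigIn In t' Z' ∧ ∀ c ∈ L, Good Z' c := by
  classical
  induction L using Finset.induction_on with
  | empty => exact ⟨t, le_rfl, Z, subset_rfl, h, by simp⟩
  | insert c L _ ih =>
    obtain ⟨t₁, h₁, Z₁, h₂, h₃, h₄⟩ := ih
    obtain ⟨t₂, h₅, Z₂, h₆, h₇, h₈⟩ := refine_one mono h₃ c
    refine ⟨t₂, h₅.trans h₁, Z₂, h₆.trans h₂, h₇, fun c' hc' => ?_⟩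
    rcases Finset.mem_insert.1 hc' with rfl | hc'
    exacts [h₈, (h₄ c' hc').mono h₆]

/-- Every infinite set of the extension is met infinitely often by a member of the generic
family. -/
theorem tall {r : Cond} (h : BigIn In r univ) : ∃ q ≤ r, ∃ y ∈ q.Y, BigIn In q y := by
  classical
  obtain ⟨r₀, hr₀, Z₀, -, hB₀, hG₀⟩ := refine_one mono h c0
  obtain ⟨st, r', F, LY, LA, q, e₀, hq, hq', hR, -, -, hA⟩ := fusion (St := Set ℕ × Set ℕ)
    (fun st t => BigIn In t st.1)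
    (fun k st _ _ LA st' t => st'.1 ⊆ st.1 ∧ (∀ c ∈ LA, Good st'.1 c) ∧ st'.2.Finite ∧
      st'.2 ⊆ st'.1 ∧ ∀ u ≤ t, ∃ u' ≤ u, ∃ n ∈ st'.2, k ≤ n ∧ In u' n) (by
      intro k st t F _ LA ht hF _
      obtain ⟨t', h₁, h₂⟩ := amalg F F.powerset (fun _ u => ∃ x : Set ℕ × ℕ, x.1 ⊆ st.1 ∧
          BigIn In u x.1 ∧ (∀ c ∈ LA, Good x.1 c) ∧ x.2 ∈ x.1 ∧ k ≤ x.2 ∧ In u x.2)
        (fun _ _ _ h ⟨x, a, b, c, d, e, f⟩ => ⟨x, a, b.mono h subset_rfl, c, d, e, mono _ _ _ h f⟩)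
        t hF fun σ _ u hu => by
          obtain ⟨u₁, a, Z', b, c, d⟩ :=
            refine_fin mono (ht.mono (hu.trans (fill_le _ _ _)) subset_rfl) LA
          obtain ⟨u₂, e, n, f, g, i⟩ := c k u₁ le_rfl
          exact ⟨u₂, e.trans a, (Z', n), b, c.mono e subset_rfl, d, f, g, i⟩
      choose! x a b c d e f using h₂
      have hfin : (F.powerset : Set (Finset (K × ℕ))).Finite := Finset.finite_toSet _
      refine ⟨(⋃ σ ∈ (F.powerset : Set (Finset (K × ℕ))), (x σ).1,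
        (fun σ => (x σ).2) '' F.powerset), t', h₁, fun m u hu => ?_,
        iUnion₂_subset fun σ hσ => a σ hσ, fun c' hc' => Good.biUnion hfin fun σ hσ => c σ hσ c' hc',
        hfin.image _, ?_, fun u hu => ?_⟩
      · obtain ⟨σ, hσ, u', h₃, h₄⟩ := cover F hu
        obtain ⟨v, h₅, n, h₆, h₇⟩ := b σ hσ m u' h₄
        exact ⟨v, h₅.trans h₃, n, mem_biUnion (by simpa using hσ) h₆, h₇⟩
      · rintro _ ⟨σ, hσ, rfl⟩
        exact mem_biUnion hσ (d σ hσ)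
      · obtain ⟨σ, hσ, u', h₃, h₄⟩ := cover F hu
        exact ⟨u', h₃, _, ⟨σ, hσ, rfl⟩, e σ hσ, mono _ _ _ h₄ (f σ hσ)⟩)
    (Z₀, ∅) r₀ hB₀
  have anti : Antitone fun k => (st k).1 := antitone_nat_of_succ_le fun k => (hR k).1
  have key : ∀ k c, Good (st k).1 c → Good (⋃ j, (st (j + 1)).2) c := by
    intro k c hc
    refine ((Good.of_finite ((finite_Iio k).biUnion fun j _ => (hR j).2.2.1) c).union hc).mono ?_
    intro n hn
    obtain ⟨j, hj⟩ := mem_iUnion.1 hn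
    rcases lt_or_ge j k with h' | h'
    · exact Or.inl (mem_biUnion h' hj)
    · exact Or.inr (anti (by omega : k ≤ j + 1) ((hR j).2.2.2.1 hj))
  have hy : Good (⋃ j, (st (j + 1)).2) c0 := key 0 _ (by rw [e₀]; exact hG₀)
  have hle : q.addY _ hy ≤ q := addY_le q hy fun c hc => by
    obtain ⟨k, hk⟩ := (hA c hc).exists
    exact key (k + 1) c ((hR k).2.1 c hk)
  refine ⟨q.addY _ hy, hle.trans (hq.trans hr₀), _, mem_insert _ _, fun m u hu => ?_⟩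
  obtain ⟨u', h₁, n, h₂, h₃⟩ := (hR m).2.2.2.2 u (hu.trans (hle.trans (hq' _)))
  exact ⟨u', h₁, n, mem_iUnion.2 ⟨m, h₂⟩, h₃⟩

end Tall

/-! ### Closing off -/

theorem closing {L : Type} (hL : #L ≤ 𝔠) (ψ : (ℕ → K) → L → K) :
    ∃ A : Set K, #A ≤ 𝔠 ∧ A.Nonempty ∧ ∀ ρ : ℕ → K, (∀ i, ρ i ∈ A) → ∀ l, ψ ρ l ∈ A := by
  let β : Option L → Type := fun o => match o with | none => Empty | some _ => ℕ
  let ev : WType β → K := WType.elim K fun x => match x with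
    | ⟨none, _⟩ => ∅
    | ⟨some l, f⟩ => ψ f l
  refine ⟨range ev, mk_range_le.trans (WType.cardinalMk_le_of_le ?_),
    ⟨_, WType.mk none Empty.elim, rfl⟩, fun ρ hρ l => ?_⟩
  · refine (sum_le_sum _ (fun _ => 𝔠) fun o => ?_).trans ?_
    · cases o with
      | none => simpa [β] using one_le_aleph0.trans aleph0_le_continuum
      | some l => simp [β]
    · rw [sum_const', mk_option]
      refine (mul_le_mul_left (add_le_add hL (one_le_aleph0.trans aleph0_le_continuum)) _).trans ?_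
      simp
  · choose f hf using hρ
    refine ⟨WType.mk (some l) f, ?_⟩
    simp only [ev, WType.elim]
    congr 1
    funext i
    exact hf i

theorem mk_ctble_le {X : Type} (hX : #X ≤ 𝔠) : #{S : Set X // S.Countable} ≤ 𝔠 := by
  have : #{S : Set X // S.Countable} ≤ #(ℕ → Option X) := by
    refine mk_le_of_surjective (f := fun f : ℕ → Option X =>
      (⟨{x | ∃ n, f n = some x}, ?_⟩ : {S : Set X // S.Countable})) ?_
    · refine ((countable_range f).preimage_of_injOn (Option.some_injective X).injOn).mono ?_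
      rintro x ⟨n, hn⟩
      exact ⟨n, hn⟩
    · rintro ⟨S, hS⟩
      rcases S.eq_empty_or_nonempty with rfl | h
      · exact ⟨fun _ => none, by simp⟩
      · obtain ⟨f, rfl⟩ := hS.exists_eq_range h
        exact ⟨fun n => some (f n), by simp [range]⟩
  refine this.trans ?_
  rw [mk_arrow, mk_option, mk_nat]
  simp only [lift_id]
  refine (power_le_power_right (add_le_add hX (one_le_aleph0.trans aleph0_le_continuum))).trans ?_
  simp

theorem Cond.ext' {p q : Cond} (h₁ : p.Y = q.Y) (h₂ : p.A = q.A) (h₃ : p.s = q.s) : p = q := by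
  cases p; cases q; simp_all

theorem mk_supp_le (ρ : ℕ → K) : #{r : Cond // r.supp ⊆ range ρ} ≤ 𝔠 := by
  have : #{r : Cond // r.supp ⊆ range ρ} ≤ #({S : Set (Set ℕ) // S.Countable} ×
      {S : Set (ℕ → ℕ) // S.Countable} × (ℕ × ℕ → Option Bool)) := by
    refine mk_le_of_injective (f := fun r => (⟨r.1.Y, r.1.hY⟩, ⟨r.1.A, r.1.hA⟩,
      fun x => r.1.s (ρ x.1, x.2))) ?_
    rintro ⟨p, hp⟩ ⟨q, hq⟩ e
    simp only [Prod.mk.injEq, Subtype.mk.injEq] at e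
    refine Subtype.ext (Cond.ext' e.1 e.2.1 (funext ?_))
    rintro ⟨α, n⟩
    by_cases h : α ∈ range ρ
    · obtain ⟨i, rfl⟩ := h
      exact congrFun e.2.2 (i, n)
    · have h₁ : p.s (α, n) = none := by
        by_contra h'
        exact h (hp ⟨n, h'⟩)
      have h₂ : q.s (α, n) = none := by
        by_contra h'
        exact h (hq ⟨n, h'⟩)
      simp only [h₁, h₂]
  refine this.trans ?_
  have h₁ := mk_ctble_le (X := Set ℕ) (by simp)
  have h₂ := mk_ctble_le (X := ℕ → ℕ) (by simp)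
  have h₃ : #(ℕ × ℕ → Option Bool) ≤ 𝔠 := by
    rw [mk_arrow]
    simp only [lift_id]
    refine (power_le_power_right (mk_le_aleph0.trans aleph0_le_continuum)).trans ?_
    simp
  simp only [mk_prod, lift_id]
  refine (mul_le_mul' h₁ (mul_le_mul' h₂ h₃)).trans ?_
  simp

open Classical in
noncomputable def Cond.restrict (r : Cond) (A : Set K) : Cond where
  Y := r.Y
  A := r.A
  s := fun z => if z.1 ∈ A then r.s z else none
  hY := r.hY
  hA := r.hA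
  hfin := r.hfin
  hgood := r.hgood
  hs := r.hs.mono (by
    rintro α ⟨n, hn⟩
    refine ⟨n, fun e => hn ?_⟩
    simp [e])
  hfree := fun α => (r.hfree α).mono (by
    intro n h
    simp only [mem_ofPred_eq] at h ⊢
    simp [h])

open Classical in
noncomputable def Cond.merge (u t : Cond) (A : Set K) : Cond where
  Y := u.Y
  A := u.A
  s := fun z => if z.1 ∈ A then u.s z else t.s z
  hY := u.hY
  hA := u.hA
  hfin := u.hfin
  hgood := u.hgood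
  hs := (u.hs.union t.hs).mono (by
    rintro α ⟨n, hn⟩
    by_cases h : α ∈ A
    · exact Or.inl ⟨n, by simpa [h] using hn⟩
    · exact Or.inr ⟨n, by simpa [h] using hn⟩)
  hfree := fun α => by
    by_cases h : α ∈ A
    · simpa [h] using u.hfree α
    · simpa [h] using t.hfree α

/-- Decisions about ground model sets do not depend on suitable rows. -/
theorem indep (Φ : Cond → Set ℕ → Prop) (mono : ∀ t t' B, t' ≤ t → Φ t B → Φ t' B)
    (h : ∀ r B, ∃ u ≤ r, Φ u B ∨ Φ u Bᶜ) :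
    ∃ α : ℕ → K, Function.Injective α ∧ ∀ t B, ∃ t' ≤ t, (Φ t' B ∨ Φ t' Bᶜ) ∧
      ∀ i n, t'.s (α i, n) = t.s (α i, n) := by
  classical
  choose u hu hΦ using h
  have h₁ : ∀ ρ : ℕ → K, ∃ ψ : Set ℕ → K, ∀ r B, r.supp ⊆ range ρ → (u r B).supp ⊆ range ψ := by
    intro ρ
    have hc : #(insert (∅ : K) (⋃ x : {r : Cond // r.supp ⊆ range ρ} × Set ℕ,
        (u x.1.1 x.2).supp) : Set K) ≤ #(Set ℕ) := by
      refine mk_insert_le.trans ?_
      have : #(⋃ x : {r : Cond // r.supp ⊆ range ρ} × Set ℕ, (u x.1.1 x.2).supp) ≤ 𝔠 := by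
        refine mk_iUnion_le_sum_mk.trans ((sum_le_sum _ (fun _ => 𝔠) fun x => ?_).trans ?_)
        · exact (le_aleph0_iff_set_countable.2 (u x.1.1 x.2).hs).trans aleph0_le_continuum
        · rw [sum_const', mk_prod]
          simp only [lift_id]
          refine (mul_le_mul_left (mul_le_mul_left (mk_supp_le ρ) _) _).trans ?_
          simp
      refine (add_le_add this (one_le_aleph0.trans aleph0_le_continuum)).trans ?_
      simp
    obtain ⟨e⟩ := hc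
    have : Nonempty (insert (∅ : K) (⋃ x : {r : Cond // r.supp ⊆ range ρ} × Set ℕ,
        (u x.1.1 x.2).supp) : Set K) := ⟨⟨∅, mem_insert _ _⟩⟩
    refine ⟨fun B => (Function.invFun e B).1, fun r B hr α hα => ?_⟩
    refine ⟨e ⟨α, Or.inr (mem_iUnion.2 ⟨(⟨r, hr⟩, B), hα⟩)⟩, ?_⟩
    simp only [Function.leftInverse_invFun e.injective _]
  choose ψ hψ using h₁
  obtain ⟨A, hA, ⟨a₀, ha₀⟩, hcl⟩ := closing (L := Set ℕ) (by simp) ψ
  have hinf : Aᶜ.Infinite := by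
    intro hfin
    have h₂ : #(univ : Set K) ≤ 𝔠 := by
      rw [← union_compl_self A]
      refine (mk_union_le _ _).trans ((add_le_add hA
        ((le_aleph0_iff_set_countable.2 hfin.countable).trans aleph0_le_continuum)).trans ?_)
      simp
    rw [mk_univ, mk_set] at h₂
    exact (cantor #(Set ℕ)).not_ge (by simpa using h₂)
  refine ⟨fun i => (hinf.natEmbedding _ i).1,
    Subtype.val_injective.comp (hinf.natEmbedding _).injective, fun t B => ?_⟩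
  have hsupp : (u (t.restrict A) B).supp ⊆ A := by
    obtain ⟨ρ, hρ⟩ := ((t.restrict A).hs.insert a₀).exists_eq_range (insert_nonempty _ _)
    have h₃ : ∀ i, ρ i ∈ A := by
      intro i
      have : ρ i ∈ insert a₀ {α | ∃ n, (t.restrict A).s (α, n) ≠ none} := hρ ▸ mem_range_self i
      rcases this with e | ⟨n, hn⟩
      · exact e ▸ ha₀
      · by_contra h'
        simp [Cond.restrict, h'] at hn
    intro α hα
    obtain ⟨l, rfl⟩ := hψ ρ (t.restrict A) B (hρ ▸ subset_insert _ _) hα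
    exact hcl ρ h₃ l
  have h₄ := hu (t.restrict A) B
  have h₅ : (u (t.restrict A) B).merge t A ≤ u (t.restrict A) B :=
    ⟨subset_rfl, subset_rfl, fun _ h h' => absurd h h', fun z b e => by
      have : z.1 ∈ A := hsupp ⟨z.2, by simp [e]⟩
      simp [Cond.merge, this, e]⟩
  refine ⟨(u (t.restrict A) B).merge t A, ⟨h₄.Y, h₄.A, h₄.good, fun z b e => ?_⟩,
    (hΦ _ _).imp (mono _ _ _ h₅) (mono _ _ _ h₅), fun i n => ?_⟩
  · by_cases hz : z.1 ∈ A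
    · simp only [Cond.merge, if_pos hz]
      exact h₄.s z b (by simp [Cond.restrict, hz, e])
    · simp [Cond.merge, hz, e]
  · have : (hinf.natEmbedding _ i).1 ∉ A := (hinf.natEmbedding _ i).2
    simp [Cond.merge, this]

end Pool.Agent.MP_e258b5_gt

end

section

namespace Pool.Agent.MP_e258b5_gt

open Set Filter Cond

open Classical in
noncomputable def cnt (x : ℕ → Prop) (m : ℕ) : ℕ := ((Finset.range m).filter x).card

theorem cnt_congr {x x' : ℕ → Prop} {m : ℕ} (h : ∀ n < m, x n ↔ x' n) : cnt x m = cnt x' m := by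
  classical
  unfold cnt
  congr 1
  exact Finset.filter_congr fun n hn => h n (Finset.mem_range.1 hn)

theorem cnt_add {x x' : ℕ → Prop} {m : ℕ} {S : Finset ℕ} (h : ∀ n < m, x' n ↔ x n ∨ n ∈ S)
    (h₁ : ∀ n ∈ S, n < m) (h₂ : ∀ n ∈ S, ¬ x n) : cnt x' m = cnt x m + S.card := by
  classical
  unfold cnt
  rw [← Finset.card_union_of_disjoint]
  · congr 1
    ext n
    simp only [Finset.mem_filter, Finset.mem_range, Finset.mem_union]
    constructor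
    · rintro ⟨a, b⟩
      exact ((h n a).1 b).imp (fun c => ⟨a, c⟩) id
    · rintro (⟨a, b⟩ | a)
      exacts [⟨a, (h n a).2 (Or.inl b)⟩, ⟨h₁ n a, (h n (h₁ n a)).2 (Or.inr a)⟩]
  · exact Finset.disjoint_left.2 fun n a b => h₂ n b (Finset.mem_filter.1 a).2

def bits (α : ℕ → K) (c : Cond) (k n : ℕ) : Prop := c.s (α k, n) = some true

theorem exists_shift (T : Finset ℕ) (M : ℕ) (h : T.card ^ 2 < M) :
    ∃ d, ∀ c, c % M ∈ T → (c + d) % M ∉ T := by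
  classical
  by_contra hn
  push Not at hn
  choose c h₁ h₂ using hn
  have : (Finset.range M).card ≤ (T ×ˢ T).card := by
    refine Finset.card_le_card_of_injOn (fun d => (c d % M, (c d + d) % M))
      (fun d _ => Finset.mem_coe.2 (Finset.mem_product.2 ⟨h₁ d, h₂ d⟩)) ?_
    intro d hd d' hd' e
    simp only [Prod.mk.injEq] at e
    have hd : d < M := by simpa using hd
    have hd' : d' < M := by simpa using hd'
    have e₁ : c d ≡ c d' [MOD M] := e.1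
    have e₂ : c d + d ≡ c d' + d' [MOD M] := e.2
    exact Nat.ModEq.eq_of_lt_of_lt (Nat.ModEq.add_left_cancel e₁ e₂) hd hd'
  rw [Finset.card_range, Finset.card_product] at this
  nlinarith

theorem exists_block {b : ℕ → ℕ} (hb : StrictMono b) {m : ℕ} (hm : b 0 ≤ m) :
    ∃ l, b l ≤ m ∧ m < b (l + 1) := by
  classical
  have h : ∃ l, m < b (l + 1) := ⟨m, lt_of_lt_of_le (Nat.lt_succ_self m) (hb.id_le _)⟩
  refine ⟨Nat.find h, ?_, Nat.find_spec h⟩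
  rcases Nat.eq_zero_or_pos (Nat.find h) with e | e
  · rwa [e]
  · have := Nat.find_min h (Nat.sub_lt e Nat.one_pos)
    rw [Nat.sub_add_cancel e] at this
    exact not_lt.1 this

/-- The density argument that destroys pseudo-intersections in the ultrafilter. -/
theorem shift {α : ℕ → K} (inj : Function.Injective α) (Φ : Cond → Set ℕ → Prop)
    (mono : ∀ t t' B, t' ≤ t → Φ t B → Φ t' B) (t : Cond)
    (dec : ∀ B, ∃ t' ≤ t, (Φ t' B ∨ Φ t' Bᶜ) ∧ ∀ i n, t'.s (α i, n) = t.s (α i, n))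
    (T : ℕ → Finset ℕ) (M : ℕ → ℕ) (hM : ∀ k, (T k).card ^ 2 < M k) (f : ℕ → ℕ) :
    ∃ t' ≤ t, ∃ B b₀, Φ t' B ∧ ∀ m ∈ B, b₀ ≤ m → ∃ l, f l ≤ m ∧
      (∀ n < m, t'.s (α l, n) ≠ none) ∧ cnt (bits α t' l) m % M l ∉ T l := by
  classical
  choose d hd using fun l => exists_shift (T l) (M l) (hM l)
  choose S hS hc using fun l => (t.hfree (α l)).exists_subset_card_eq (d l)
  let e : ℕ → ℕ := fun l => max (f l) ((S l).sup id + 1)
  let b : ℕ → ℕ := fun l => Nat.rec (e 0) (fun l x => max (x + 1) (e (l + 1))) l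
  have hb : StrictMono b := strictMono_nat_of_lt_succ fun l =>
    lt_of_lt_of_le (Nat.lt_succ_self _) (le_max_left _ _)
  have he : ∀ l, e l ≤ b l := by
    intro l
    cases l with
    | zero => exact le_rfl
    | succ l => exact le_max_right _ _
  have hf : ∀ l, f l ≤ b l := fun l => (le_max_left _ _).trans (he l)
  have hSb : ∀ l, ∀ n ∈ S l, n < b l := fun l n hn =>
    lt_of_lt_of_le (Nat.lt_succ_of_le (Finset.le_sup (f := id) hn)) ((le_max_right _ _).trans (he l))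
  let D : Set (K × ℕ) := {z | ∃ l, z.1 = α l ∧ z.2 < b (l + 1)}
  have h₁ : (Prod.fst '' D).Countable := (countable_range α).mono (by
    rintro _ ⟨z, ⟨l, h, -⟩, rfl⟩
    exact ⟨l, h.symm⟩)
  have h₂ : ∀ β, {n | (β, n) ∈ D}.Finite := by
    intro β
    by_cases h : ∃ l, β = α l
    · obtain ⟨l, rfl⟩ := h
      refine (finite_Iio (b (l + 1))).subset ?_
      rintro n ⟨l', h, h'⟩
      exact inj h ▸ h'
    · refine finite_empty.subset ?_
      rintro n ⟨l, h', -⟩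
      exact h ⟨l, h'⟩
  obtain ⟨u, hu, hΦ, hrow⟩ := dec
    {m | ∃ l, b l ≤ m ∧ m < b (l + 1) ∧ cnt (bits α t l) m % M l ∉ T l}
  have key : ∀ (v : K × ℕ → Bool) l n, n < b (l + 1) →
      (bits α (u.ovr D v h₁ h₂) l n ↔ bits α t l n ∨ (t.s (α l, n) = none ∧ v (α l, n) = true)) := by
    intro v l n hn
    unfold bits
    by_cases h : u.s (α l, n) = none
    · rw [ovr_s_free h (show (α l, n) ∈ D from ⟨l, rfl, hn⟩), ← hrow, h]
      simp
    · rw [ovr_s_some h, ← hrow]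
      simp [h]
  rcases hΦ with hΦ | hΦ
  · refine ⟨u.ovr D (fun _ => false) h₁ h₂, ovr_le.trans hu, _, 0, mono _ _ _ ovr_le hΦ, ?_⟩
    rintro m ⟨l, a₁, a₂, a₃⟩ -
    refine ⟨l, (hf l).trans a₁, fun n hn => ovr_ne_none ⟨l, rfl, hn.trans a₂⟩, ?_⟩
    rwa [cnt_congr (x' := bits α t l) fun n hn => by simp [key _ l n (hn.trans a₂)]]
  · refine ⟨u.ovr D (fun z => decide (∃ l, z.1 = α l ∧ z.2 ∈ S l)) h₁ h₂, ovr_le.trans hu, _, b 0,
      mono _ _ _ ovr_le hΦ, fun m hm hm' => ?_⟩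
    obtain ⟨l, a₁, a₂⟩ := exists_block hb hm'
    have a₃ : cnt (bits α t l) m % M l ∈ T l := by
      by_contra h
      exact hm ⟨l, a₁, a₂, h⟩
    refine ⟨l, (hf l).trans a₁, fun n hn => ovr_ne_none ⟨l, rfl, hn.trans a₂⟩, ?_⟩
    rw [cnt_add (x := bits α t l) (S := S l) ?_ (fun n hn => (hSb l n hn).trans_le a₁) ?_, hc]
    · exact hd l _ a₃
    · intro n hn
      rw [key _ l n (hn.trans a₂)]
      refine or_congr_right ⟨?_, fun h => ⟨hS l h, by simpa using ⟨l, rfl, h⟩⟩⟩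
      rintro ⟨-, h⟩
      obtain ⟨l', h₃, h₄⟩ := of_decide_eq_true h
      exact inj h₃ ▸ h₄
    · intro n hn h
      have : t.s (α l, n) = none := hS l hn
      unfold bits at h
      rw [this] at h
      simp at h

/-- The level function. -/
noncomputable def lam (T : ℕ → Finset ℕ) (M : ℕ → ℕ) (x : ℕ → ℕ → Prop) (m : ℕ) : ℕ :=
  sInf {k | cnt (x k) m % M k ∉ T k ∨ k = m}

theorem lam_congr {T : ℕ → Finset ℕ} {M : ℕ → ℕ} {x x' : ℕ → ℕ → Prop} {m : ℕ}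
    (h : ∀ k ≤ m, ∀ n < m, x k n ↔ x' k n) : lam T M x m = lam T M x' m := by
  have key : ∀ {x x' : ℕ → ℕ → Prop}, (∀ k ≤ m, ∀ n < m, x k n ↔ x' k n) →
      lam T M x m ≤ lam T M x' m := by
    intro x x' h
    have h₁ : lam T M x' m ≤ m := Nat.sInf_le (Or.inr rfl)
    have h₂ : lam T M x' m ∈ {k | cnt (x' k) m % M k ∉ T k ∨ k = m} :=
      Nat.sInf_mem ⟨m, Or.inr rfl⟩
    refine Nat.sInf_le (h₂.imp (fun a => ?_) id)
    rwa [cnt_congr (h _ h₁)]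
  exact le_antisymm (key h) (key fun k hk n hn => (h k hk n hn).symm)

theorem lam_le {T : ℕ → Finset ℕ} {M : ℕ → ℕ} {x : ℕ → ℕ → Prop} {m l : ℕ}
    (h : cnt (x l) m % M l ∉ T l) : lam T M x m ≤ l := Nat.sInf_le (Or.inl h)

theorem le_lam {T : ℕ → Finset ℕ} {M : ℕ → ℕ} {x : ℕ → ℕ → Prop} {m i : ℕ} (hi : i ≤ m)
    (h : ∀ k < i, cnt (x k) m % M k ∈ T k) : i ≤ lam T M x m := by
  by_contra h'
  have h₂ : lam T M x m ∈ {k | cnt (x k) m % M k ∉ T k ∨ k = m} := Nat.sInf_mem ⟨m, Or.inr rfl⟩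
  rcases h₂ with h₂ | h₂
  · exact h₂ (h _ (not_le.1 h'))
  · omega

open Classical in
/-- The colouring attached to an interval partition. -/
noncomputable def colr (a : ℕ → ℕ) (n : ℕ) : ℕ :=
  if h : ∃ j, a j ≤ n ∧ n < a (j + 1) then h.choose.unpair.1 else 0

theorem good_blocks {a : ℕ → ℕ} (ha : StrictMono a) {y : Set ℕ} (h : Good y (colr a)) :
    ∃ (i₀ : ℕ) (f : ℕ → ℕ), ∀ i ≥ i₀, ∀ m ≥ f i, ∀ n ∈ y,
      a (Nat.pair i m) ≤ n → a (Nat.pair i m + 1) ≤ n := by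
  obtain ⟨i₀, hi⟩ := eventually_atTop.1 h
  have : ∀ i ≥ i₀, ∃ B, ∀ n ∈ y, colr a n = i → n < B := fun i h' => by
    obtain ⟨B, hB⟩ := (hi i h').bddAbove
    exact ⟨B + 1, fun n a b => Nat.lt_succ_of_le (hB ⟨a, b⟩)⟩
  choose! f hf using this
  refine ⟨i₀, f, fun i h₁ m h₂ n hn h₃ => ?_⟩
  by_contra h₄
  have h₅ : ∃ j, a j ≤ n ∧ n < a (j + 1) := ⟨_, h₃, not_le.1 h₄⟩
  have h₆ : h₅.choose = Nat.pair i m := by
    obtain ⟨b₁, b₂⟩ := h₅.choose_spec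
    have c₁ := ha.lt_iff_lt.1 (b₁.trans_lt (not_le.1 h₄))
    have c₂ := ha.lt_iff_lt.1 (h₃.trans_lt b₂)
    omega
  have h₇ : colr a n = i := by
    unfold colr
    rw [dif_pos h₅, h₆, Nat.unpair_pair]
  have h₈ := hf i h₁ n hn h₇
  have h₉ : Nat.pair i m ≤ a (Nat.pair i m) := ha.id_le _
  have := Nat.right_le_pair i m
  omega

end Pool.Agent.MP_e258b5_gt

end

section

namespace Pool.Agent.MP_e258b5_gt

open Pool.Agent.MP_c6cf52_lc Name Gen Set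

/-- The name of the space. -/
noncomputable def XN : Name Cond :=
  Name.mk {x : Set ℕ × Cond // x.1 ∈ x.2.Y} (fun x => sN x.1.1) (fun x => x.1.2)

noncomputable def UN (n : ℕ) : Name Cond :=
  Name.mk {x : Set ℕ × Cond // x.1 ∈ x.2.Y ∧ n ∉ x.1} (fun x => sN x.1.1) (fun x => x.1.2)

noncomputable def U0 : Name Cond := fam UN

def Base : Set (Name Cond) := {XN, U0} ∪ sN '' {y | y.Finite}

theorem base_ctble : Base.Countable :=
  (to_countable _).union (Set.Countable.ofPred_finite.image _)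

variable {g : Gen Cond}

theorem XN_mem (h : Base ⊆ g.N) : XN ∈ g.N := h (Or.inl (Or.inl rfl))

theorem U0_mem (h : Base ⊆ g.N) : U0 ∈ g.N := h (Or.inl (Or.inr rfl))

theorem UN_mem (h : Base ⊆ g.N) (n : ℕ) : UN n ∈ g.N := fam_mem (U0_mem h) n

theorem fin_mem (h : Base ⊆ g.N) {y : Set ℕ} (hy : y.Finite) : sN y ∈ g.N := h (Or.inr ⟨y, hy, rfl⟩)

theorem E_XN (h : XN ∈ g.N) {x : g.M} :
    g.E x (g.v XN) ↔ ∃ y, (∃ c ∈ g.G, y ∈ c.Y) ∧ sN y ∈ g.N ∧ g.v (sN y) = x := by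
  rw [E_v h]
  exact ⟨fun ⟨⟨⟨y, c⟩, h₀⟩, h₁, h₂⟩ => ⟨y, ⟨c, h₁, h₀⟩, h₂⟩,
    fun ⟨y, ⟨c, h₁, h₀⟩, h₂⟩ => ⟨⟨(y, c), h₀⟩, h₁, h₂⟩⟩

theorem E_UN (h : Base ⊆ g.N) {n : ℕ} {x : g.M} :
    g.E x (g.v (UN n)) ↔ g.E x (g.v XN) ∧ ¬ g.E (g.v (nN n)) x := by
  rw [E_v (UN_mem h n), E_XN (XN_mem h)]
  constructor
  · rintro ⟨⟨⟨y, c⟩, h₀, h₀'⟩, h₁, h₂, rfl⟩
    exact ⟨⟨y, ⟨c, h₁, h₀⟩, h₂, rfl⟩, fun e => h₀' ((nN_sN h₂).1 e)⟩
  · rintro ⟨⟨y, ⟨c, h₁, h₀⟩, h₂, rfl⟩, h₃⟩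
    exact ⟨⟨(y, c), h₀, fun e => h₃ ((nN_sN h₂).2 e)⟩, h₁, h₂, rfl⟩

theorem E_U0 (h : Base ⊆ g.N) {x : g.M} : g.E x (g.v U0) ↔ ∃ n, g.v (UN n) = x := by
  unfold U0
  rw [E_fam (U0_mem h)]
  exact exists_congr fun n => and_iff_right (UN_mem h n)

theorem fin_X (h : Base ⊆ g.N) {y : Set ℕ} (hy : y.Finite) : g.E (g.v (sN y)) (g.v XN) :=
  (E_XN (XN_mem h)).2 ⟨y, ⟨⊤, g.top, hy⟩, fin_mem h hy, rfl⟩

theorem X_sub (h : XN ∈ g.N) (x : g.M) (hx : g.E x (g.v XN)) : Sub g.E x (g.v wN) := by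
  obtain ⟨y, -, h₁, rfl⟩ := (E_XN h).1 hx
  exact sN_sub h₁

theorem X_inf (h : Base ⊆ g.N) : ¬ IsFin g.E (g.v wN) (g.v XN) := by
  rw [isFin_iff]
  refine infinite_of_injective_forall_mem (f := fun n : ℕ => g.v (sN {n})) (fun a b e => ?_)
    fun n => fin_X h (finite_singleton n)
  have : g.E (g.v (nN a)) (g.v (sN {a})) := (nN_sN (fin_mem h (finite_singleton a))).2 rfl
  rw [show g.v (sN {a}) = g.v (sN {b}) from e] at this
  exact (nN_sN (fin_mem h (finite_singleton b))).1 this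

theorem UN_inj (h : Base ⊆ g.N) : Function.Injective fun n => g.v (UN n) := by
  intro a b e
  by_contra hab
  have h₁ : g.E (g.v (sN {a})) (g.v (UN b)) := (E_UN h).2 ⟨fin_X h (finite_singleton a),
    fun h' => hab ((nN_sN (fin_mem h (finite_singleton a))).1 h').symm⟩
  rw [← show g.v (UN a) = g.v (UN b) from e] at h₁
  exact ((E_UN h).1 h₁).2 ((nN_sN (fin_mem h (finite_singleton a))).2 rfl)

theorem U0_omega (h : Base ⊆ g.N) : IsOmegaCov g.E (g.v wN) (g.v XN) (g.v U0) := by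
  have key : ∀ S : Set g.M, S.Finite → (∀ x ∈ S, g.E x (g.v XN)) →
      ∃ n, ∀ x ∈ S, g.E x (g.v (UN n)) := by
    intro S hS hX
    have : ∀ x ∈ S, ∃ y, Good y c0 ∧ ∀ n, g.E (g.v (nN n)) x → n ∈ y := fun x hx => by
      obtain ⟨y, ⟨c, -, h₁⟩, h₂, rfl⟩ := (E_XN (XN_mem h)).1 (hX x hx)
      exact ⟨y, c.hgood y h₁, fun n => (nN_sN h₂).1⟩
    choose! y h₁ h₂ using this
    obtain ⟨n, hn⟩ := (Good.biUnion hS h₁).ne_univ
    exact ⟨n, fun x hx => (E_UN h).2 ⟨hX x hx, fun e => hn (mem_biUnion hx (h₂ x hx n e))⟩⟩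
  refine ⟨⟨fun u hu => ?_, fun x hx => ?_⟩, fun hX => ?_, fun c hc hfin => ?_⟩
  · obtain ⟨n, rfl⟩ := (E_U0 h).1 hu
    refine ⟨fun x hx => ((E_UN h).1 hx).1, fun x hx => ⟨_, nN_wN (n + 1), fun y hy H => ?_⟩⟩
    exact (E_UN h).2 ⟨hy, fun e => ((E_UN h).1 hx).2 ((H _ (nN_lt.2 (Nat.lt_succ_self n))).2 e)⟩
  · obtain ⟨n, hn⟩ := key {x} (finite_singleton x) (by simpa using hx)
    exact ⟨_, (E_U0 h).2 ⟨n, rfl⟩, hn x rfl⟩
  · obtain ⟨n, e⟩ := (E_U0 h).1 hX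
    have := fin_X h (finite_singleton n)
    rw [← e] at this
    exact ((E_UN h).1 this).2 ((nN_sN (fin_mem h (finite_singleton n))).2 rfl)
  · obtain ⟨n, hn⟩ := key _ (isFin_iff.1 hfin) hc
    exact ⟨_, (E_U0 h).2 ⟨n, rfl⟩, hn⟩

theorem not_gamma (h : Base ⊆ g.N) (V : g.M) :
    ¬ (Sub g.E V (g.v U0) ∧ IsGammaCov g.E (g.v wN) (g.v XN) V) := by
  obtain ⟨V, hV, rfl⟩ := exists_v V
  refine dens (Ψ := fun _ E w => ¬ (Sub E (w 0) (w 1) ∧ IsGammaCov E (w 2) (w 3) (w 0)))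
    ((UD.sub _ _).and (UD.isGammaCov _ _ _)).not (l4 hV (U0_mem h) wN_mem (XN_mem h)) fun r _ => ?_
  let In : Cond → ℕ → Prop := fun t n =>
    ∀ g' : Gen Cond, t ∈ g'.G → UN n ∈ g'.N → V ∈ g'.N → g'.E (g'.v (UN n)) (g'.v V)
  have mono : ∀ t t' n, t' ≤ t → In t n → In t' n := fun t t' n ht H g' hg => H g' (g'.up hg ht)
  by_cases hB : BigIn In r univ
  · obtain ⟨q, hq, y, hy, H⟩ := tall mono hB
    refine ⟨q, hq, Base ∪ insert (sN y) (range fun k => denseN {t | ∃ n ∈ y, k ≤ n ∧ In t n}),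
      base_ctble.union ((countable_range _).insert _), fun g' hg hC hl => ?_⟩
    have hB' : Base ⊆ g'.N := fun x hx => hC (Or.inl hx)
    have hy' : sN y ∈ g'.N := hC (Or.inr (Or.inl rfl))
    have hV' : V ∈ g'.N := hl _ (by simp)
    rintro ⟨-, -, -, H'⟩
    obtain ⟨c, h₁, h₂⟩ := H' (g'.v (sN y)) ((E_XN (XN_mem hB')).2 ⟨y, ⟨q, hg, hy⟩, hy', rfl⟩)
    have h₃ := (isFin_iff.1 h₂).preimage (UN_inj hB').injOn
    refine Set.infinite_of_forall_exists_gt (fun k => ?_) h₃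
    obtain ⟨d, ⟨n, a₁, a₂, a₃⟩, hd⟩ := meets_below (hC (Or.inr (Or.inr ⟨k + 1, rfl⟩))) hg
      fun t ht => H (k + 1) t ht
    exact ⟨n, (h₁ _).2 ⟨a₃ g' hd (UN_mem hB' n) hV',
      fun e => ((E_UN hB').1 e).2 ((nN_sN hy').2 a₁)⟩, a₂⟩
  · simp only [BigIn, not_forall, not_exists, not_and] at hB
    obtain ⟨m, u, hu, H⟩ := hB
    refine ⟨u, hu, Base, base_ctble, fun g' hg hB' hl => ?_⟩
    have hV' : V ∈ g'.N := hl _ (by simp)
    rintro ⟨h₁, -, h₂, -⟩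
    refine h₂ (isFin_iff.2 (((finite_Iio m).image fun n => g'.v (UN n)).subset fun x hx => ?_))
    obtain ⟨n, rfl⟩ := (E_U0 hB').1 (h₁ x hx)
    refine ⟨n, show n < m from not_le.1 fun hn => ?_, rfl⟩
    obtain ⟨p, hp, H'⟩ := transfer (UDef.mem 0 1) (l2 (UN_mem hB' n) hV') hx
    obtain ⟨s, -, a₁, a₂⟩ := g'.dir hp hg
    exact H s a₂ n trivial hn fun g'' b₁ b₂ b₃ => H' g'' (g''.up b₁ a₁) (l2 b₂ b₃)

end Pool.Agent.MP_e258b5_gt

end

section

namespace Pool.Agent.MP_e258b5_gt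

open Pool.Agent.MP_c6cf52_lc Name Gen Set Cond Filter

/-- `r` forces that `p` is an ultrafilter and `U` an omega-cover. -/
def Forced (p U : Name Cond) (r : Cond) : Prop :=
  ∀ g : Gen Cond, r ∈ g.G → p ∈ g.N → U ∈ g.N → XN ∈ g.N →
    IsUltra g.E (g.v wN) (g.v p) ∧ IsOmegaCov g.E (g.v wN) (g.v XN) (g.v U)

noncomputable def DN (α : ℕ → K) (k M i : ℕ) : Name Cond :=
  locN fun c m => (∀ n < m, c.s (α k, n) ≠ none) ∧ cnt (bits α c k) m % M = i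

def P1 (U : Name Cond) (t : Cond) (τ : Name Cond) (m m' : ℕ) : Prop :=
  ∀ g : Gen Cond, t ∈ g.G → τ ∈ g.N → U ∈ g.N → XN ∈ g.N → g.E (g.v τ) (g.v U) ∧
    ∀ x, g.E x (g.v XN) → (∀ n, m ≤ n → n < m' → ¬ g.E (g.v (nN n)) x) → g.E x (g.v τ)

def P2 (t : Cond) (τ w : Name Cond) : Prop :=
  ∀ g : Gen Cond, t ∈ g.G → τ ∈ g.N → w ∈ g.N → g.v τ ≠ g.v w

def P3 (t : Cond) (τ w : Name Cond) : Prop :=
  ∀ g : Gen Cond, t ∈ g.G → τ ∈ g.N → w ∈ g.N → g.E (g.v w) (g.v τ)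

theorem P1.mono {U τ : Name Cond} {t t' : Cond} {m m' m'' : ℕ} (h : P1 U t τ m m') (ht : t' ≤ t)
    (hm : m' ≤ m'') : P1 U t' τ m m'' := fun g hg a b c =>
  ⟨(h g (g.up hg ht) a b c).1, fun x hx H =>
    (h g (g.up hg ht) a b c).2 x hx fun n h₁ h₂ => H n h₁ (h₂.trans_le hm)⟩

theorem P2.mono {τ w : Name Cond} {t t' : Cond} (h : P2 t τ w) (ht : t' ≤ t) : P2 t' τ w :=
  fun g hg => h g (g.up hg ht)

theorem P3.mono {τ w : Name Cond} {t t' : Cond} (h : P3 t τ w) (ht : t' ≤ t) : P3 t' τ w :=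
  fun g hg => h g (g.up hg ht)

theorem dec_dense (S : Finset (K × ℕ)) (q : Cond) :
    ∀ t ≤ q, ∃ t' ≤ t, t' ∈ {c : Cond | ∀ z ∈ S, c.s z ≠ none} := fun t _ => exists_dec t S

variable {p U : Name Cond} {α : ℕ → K}

theorem step_one {t : Cond} (ht : Forced p U t) (m : ℕ) {W : Set (Name Cond)} (hW : W.Finite)
    (LY : Finset (Set ℕ)) (hLY : ↑LY ⊆ t.Y) (α : ℕ → K) (k M : ℕ) (hM : 0 < M) :
    ∃ t' ≤ t, ∃ x : Name Cond × ℕ × ℕ, m < x.2.1 ∧ P1 U t' x.1 m x.2.1 ∧ (∀ w ∈ W, P2 t' x.1 w) ∧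
      (∀ y ∈ LY, P3 t' x.1 (sN y)) ∧ P3 t' p (DN α k M x.2.2) := by
  classical
  obtain ⟨g, hg, hC⟩ := exists_gen t (Base ∪ ({p, U} ∪ (W ∪ (sN '' LY ∪ (range (DN α k M) ∪
      range fun m => denseN {c : Cond | ∀ z ∈ (Finset.range m).image (fun n => (α k, n)),
        c.s z ≠ none})))))
    (base_ctble.union ((to_countable _).union (hW.countable.union
      ((LY.finite_toSet.image _).countable.union ((countable_range _).union (countable_range _))))))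
  simp only [union_subset_iff, insert_subset_iff, singleton_subset_iff, image_subset_iff,
    range_subset_iff] at hC
  obtain ⟨hB, ⟨hp, hU⟩, hWN, hYN, hDN, hdN⟩ := hC
  obtain ⟨hult, ⟨hopen, -⟩, hXU, hom⟩ := ht g hg hp hU (XN_mem hB)
  have hx : ∀ w : Name Cond, ∃ x, g.E x (g.v XN) ∧ (g.E (g.v w) (g.v U) → ¬ g.E x (g.v w)) := by
    intro w
    by_cases h : g.E (g.v w) (g.v U)
    · by_contra h'
      push Not at h'
      refine hXU ((Gen.ext fun x => ⟨(hopen _ h).1 x, fun hx => (h' x hx).2⟩ :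
        g.v w = g.v XN) ▸ h)
    · exact ⟨_, fin_X hB finite_empty, fun h' => absurd h' h⟩
  choose xw hx₁ hx₂ using hx
  have hfin : {s : Set ℕ | s ⊆ Iio m}.Finite := (finite_Iio m).finite_subsets
  obtain ⟨c, hc⟩ := exists_set (g := g) (S := xw '' W ∪ ((fun y => g.v (sN y)) '' LY ∪
    (fun y => g.v (sN y)) '' {s : Set ℕ | s ⊆ Iio m}))
    ((hW.image _).union ((LY.finite_toSet.image _).union (hfin.image _)))
  obtain ⟨u, hu, hcu⟩ := hom c (by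
      intro x hx
      rcases (hc x).1 hx with ⟨w, -, rfl⟩ | ⟨y, hy, rfl⟩ | ⟨y, hy, rfl⟩
      · exact hx₁ w
      · exact (E_XN (XN_mem hB)).2 ⟨y, ⟨t, hg, hLY hy⟩, hYN hy, rfl⟩
      · exact fin_X hB ((finite_Iio m).subset hy))
    (isFin_iff.2 (((hW.image _).union ((LY.finite_toSet.image _).union (hfin.image _))).subset
      fun x hx => (hc x).1 hx))
  obtain ⟨τ, hτ, rfl⟩ := exists_v u
  have hn : ∀ s ∈ {s : Set ℕ | s ⊆ Iio m}, ∃ n, ∀ y, g.E y (g.v XN) →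
      (∀ j < n, j ∈ s ↔ g.E (g.v (nN j)) y) → g.E y (g.v τ) := by
    intro s hs
    obtain ⟨n, hn, H⟩ := (hopen _ hu).2 _ (hcu _ ((hc _).2 (Or.inr (Or.inr ⟨s, hs, rfl⟩))))
    obtain ⟨n, rfl⟩ := E_wN.1 hn
    refine ⟨n, fun y hy H' => H y hy fun j hj => ?_⟩
    obtain ⟨j, hj', rfl⟩ := E_nN.1 hj
    rw [nN_sN (fin_mem hB ((finite_Iio m).subset hs))]
    exact H' j hj'
  choose! ns hns using hn
  obtain ⟨B, hBd⟩ := (hfin.image ns).bddAbove
  obtain ⟨i, -, hi⟩ := big_part hult (M := M) (D := fun i => g.v (DN α k M i))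
    (fun i _ => locN_sub (hDN i)) (fun n => by
      obtain ⟨d, h₁, h₂⟩ := meets_below (hdN n) hg (dec_dense _ t)
      exact ⟨_, Nat.mod_lt _ hM, (nN_locN (hDN _)).2 ⟨d, h₂, fun j hj => h₁ _
        (Finset.mem_image.2 ⟨j, Finset.mem_range.2 hj, rfl⟩), rfl⟩⟩)
  have l5 : ∀ {g : Gen Cond}, τ ∈ g.N → U ∈ g.N → XN ∈ g.N →
      ∀ x ∈ [τ, U, XN, nN m, nN (max B (m + 1))], x ∈ g.N := fun a b c =>
    lcons a (l4 b c (nN_mem _) (nN_mem _))
  obtain ⟨t₁, ht₁, H₁⟩ := transfer (Ψ := fun _ E w => E (w 0) (w 1) ∧ ∀ x, E x (w 2) →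
      (∀ n, E n (w 4) → ¬ E n (w 3) → ¬ E n x) → E x (w 0)) (by
      repeat' first
        | exact UDef.mem _ _ | apply UDef.and | apply UDef.not | apply UDef.imp | apply UDef.all)
    (l5 hτ hU (XN_mem hB)) ⟨hu, fun x hx H => by
      refine hns {j | j < m ∧ g.E (g.v (nN j)) x} (fun j hj => hj.1) x hx fun j hj =>
        ⟨fun h => h.2, fun h => ⟨?_, h⟩⟩
      by_contra h'
      have h₁ : ns {j | j < m ∧ g.E (g.v (nN j)) x} ≤ B := hBd ⟨_, fun j hj => hj.1, rfl⟩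
      exact H _ (nN_lt.2 (by omega)) (fun e => h' (nN_lt.1 e)) h⟩
  obtain ⟨t₂, ht₂, H₂⟩ := transfer (UDef.mem 0 1) (l2 (hDN i) hp) hi
  obtain ⟨t₃, ht₃, a₁, a₂⟩ := g.dir ht₁ ht₂
  obtain ⟨t₄, ht₄, a₃, a₄⟩ := g.dir ht₃ hg
  obtain ⟨t₅, ht₅, a₅, H₃⟩ := dir_fin hW (Φ := fun w t => P2 t τ w) (fun _ _ _ h h' => h'.mono h)
    (fun w hw => by
      obtain ⟨s, hs, H⟩ := transfer (UDef.ne 0 1) (l2 hτ (hWN hw)) (fun e : g.v τ = g.v w =>
        hx₂ w (e ▸ hu) (e ▸ hcu _ ((hc _).2 (Or.inl ⟨w, hw, rfl⟩))))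
      exact ⟨s, hs, fun g' b₁ b₂ b₃ => H g' b₁ (l2 b₂ b₃)⟩) ht₄
  obtain ⟨t₆, -, a₆, H₄⟩ := dir_fin LY.finite_toSet (Φ := fun y t => P3 t τ (sN y))
    (fun _ _ _ h h' => h'.mono h) (fun y hy => by
      obtain ⟨s, hs, H⟩ := transfer (UDef.mem 0 1) (l2 (hYN hy) hτ)
        (hcu _ ((hc _).2 (Or.inr (Or.inl ⟨y, hy, rfl⟩))))
      exact ⟨s, hs, fun g' b₁ b₂ b₃ => H g' b₁ (l2 b₃ b₂)⟩) ht₅
  refine ⟨t₆, a₆.trans (a₅.trans a₄), (τ, max B (m + 1), i), by simp, fun g' b₁ b₂ b₃ b₄ => ?_,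
    fun w hw => (H₃ w hw).mono a₆, H₄, fun g' b₁ b₂ b₃ =>
      H₂ g' (g'.up b₁ (a₆.trans (a₅.trans (a₃.trans a₂)))) (l2 b₃ b₂)⟩
  obtain ⟨c₁, c₂⟩ := H₁ g' (g'.up b₁ (a₆.trans (a₅.trans (a₃.trans a₁)))) (l5 b₂ b₃ b₄)
  refine ⟨c₁, fun x hx H => c₂ x hx fun n d₁ d₂ => ?_⟩
  obtain ⟨j, hj, rfl⟩ := E_nN.1 d₁
  exact H j (not_lt.1 fun e => d₂ (nN_lt.2 e)) hj

/-- The outcome of the fusion construction. -/
structure Data (p U : Name Cond) (α : ℕ → K) where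
  q : Cond
  r : ℕ → Cond
  F : ℕ → Finset (K × ℕ)
  a : ℕ → ℕ
  τ : ℕ → Finset (K × ℕ) → Name Cond
  i : ℕ → Finset (K × ℕ) → ℕ
  LY : ℕ → Finset (Set ℕ)
  forced : Forced p U q
  ha : StrictMono a
  hq : ∀ k, q ≤ r k
  free : ∀ k, (r k).Free (F k)
  hc : colr a ∈ q.A
  hLY : ∀ y ∈ q.Y, ∀ᶠ k in atTop, y ∈ LY k
  h1 : ∀ k, ∀ σ ∈ (F k).powerset, P1 U ((r k).fill (F k) σ) (τ k σ) (a k) (a (k + 1))
  h2 : ∀ j k, j < k → ∀ σ ∈ (F j).powerset, ∀ σ' ∈ (F k).powerset,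
    P2 ((r k).fill (F k) σ') (τ k σ') (τ j σ)
  h3 : ∀ k, ∀ σ ∈ (F k).powerset, ∀ y ∈ LY k, P3 ((r k).fill (F k) σ) (τ k σ) (sN y)
  h4 : ∀ k, ∀ σ ∈ (F k).powerset,
    P3 ((r k).fill (F k) σ) p (DN α k (4 ^ (F k).card + 1) (i k σ))

theorem exists_data {r₀ : Cond} (h : Forced p U r₀) (α : ℕ → K) :
    ∃ d : Data p U α, d.q ≤ r₀ := by
  classical
  have hF : ∀ t ≤ r₀, Forced p U t := fun t ht g hg => h g (g.up hg ht)
  obtain ⟨st, r, F, LY, LA, q, -, hq, hq', hR, hfree, hY, -⟩ :=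
    fusion (St := ℕ × Set (Name Cond)) (fun st t => t ≤ r₀ ∧ st.2.Finite)
    (fun k st F LY _ st' t => st.1 < st'.1 ∧ st.2 ⊆ st'.2 ∧
      ∃ x : Finset (K × ℕ) → Name Cond × ℕ × ℕ, ∀ σ ∈ F.powerset, (x σ).1 ∈ st'.2 ∧
        P1 U (t.fill F σ) (x σ).1 st.1 st'.1 ∧ (∀ w ∈ st.2, P2 (t.fill F σ) (x σ).1 w) ∧
        (∀ y ∈ LY, P3 (t.fill F σ) (x σ).1 (sN y)) ∧
        P3 (t.fill F σ) p (DN α k (4 ^ F.card + 1) (x σ).2.2)) (by
      rintro k ⟨m, W⟩ t F LY _ ⟨ht, hW⟩ hfree hLY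
      obtain ⟨t', h₁, h₂⟩ := amalg F F.powerset (fun _ t' => ∃ x : Name Cond × ℕ × ℕ,
          m < x.2.1 ∧ P1 U t' x.1 m x.2.1 ∧ (∀ w ∈ W, P2 t' x.1 w) ∧
          (∀ y ∈ LY, P3 t' x.1 (sN y)) ∧ P3 t' p (DN α k (4 ^ F.card + 1) x.2.2))
        (fun _ _ _ h ⟨x, a, b, c, d, e⟩ => ⟨x, a, b.mono h le_rfl, fun w hw => (c w hw).mono h,
          fun y hy => (d y hy).mono h, e.mono h⟩) t hfree fun σ _ u hu =>
          step_one (hF u (hu.trans ((fill_le _ _ _).trans ht))) m hW LY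
            (hLY.trans (hu.trans (fill_le _ _ _)).Y) α k _ (Nat.succ_pos _)
      choose! x a b c d e using h₂
      refine ⟨(F.powerset.sup fun σ => (x σ).2.1, W ∪ (fun σ => (x σ).1) '' F.powerset), t', h₁,
        ⟨h₁.1.trans ht, hW.union ((Finset.finite_toSet _).image _)⟩,
        (a ∅ (Finset.empty_mem_powerset _)).trans_le
          (Finset.le_sup (f := fun σ => (x σ).2.1) (Finset.empty_mem_powerset _)),
        subset_union_left, x, fun σ hσ => ⟨Or.inr ⟨σ, hσ, rfl⟩,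
          (b σ hσ).mono le_rfl (Finset.le_sup (f := fun σ => (x σ).2.1) hσ), c σ hσ, d σ hσ,
          e σ hσ⟩⟩) (0, ∅) r₀ ⟨le_rfl, finite_empty⟩
  choose h₁ h₂ x h₃ using hR
  have hW : Monotone fun k => (st k).2 := monotone_nat_of_le_succ h₂
  refine ⟨⟨q.addA (colr fun k => (st k).1), fun k => r (k + 1), F, fun k => (st k).1,
    fun k σ => (x k σ).1, fun k σ => (x k σ).2.2, LY, hF _ ((addA_le _ _).trans hq),
    strictMono_nat_of_lt_succ h₁, fun k => (addA_le _ _).trans (hq' _), hfree, mem_insert _ _,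
    hY, fun k σ hσ => (h₃ k σ hσ).2.1, fun j k hjk σ hσ σ' hσ' =>
      (h₃ k σ' hσ').2.2.1 _ (hW (Nat.succ_le_of_lt hjk) (h₃ j σ hσ).1),
    fun k σ hσ => (h₃ k σ hσ).2.2.2.1, fun k σ hσ => (h₃ k σ hσ).2.2.2.2⟩,
    (addA_le _ _).trans hq⟩

end Pool.Agent.MP_e258b5_gt

end

section

namespace Pool.Agent.MP_e258b5_gt

open Pool.Agent.MP_c6cf52_lc Name Gen Set Cond Filter

variable {p U : Name Cond} {α : ℕ → K}

def Dec (α : ℕ → K) (c : Cond) (m : ℕ) : Prop := ∀ k ≤ m, ∀ n < m, c.s (α k, n) ≠ none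

/-- The generic rows. -/
def gx (α : ℕ → K) (g : Gen Cond) (k n : ℕ) : Prop := ∃ c ∈ g.G, bits α c k n

theorem bits_iff {g : Gen Cond} {c : Cond} (hc : c ∈ g.G) {k n : ℕ} (h : c.s (α k, n) ≠ none) :
    bits α c k n ↔ gx α g k n := by
  refine ⟨fun h' => ⟨c, hc, h'⟩, fun ⟨c', hc', h'⟩ => ?_⟩
  obtain ⟨s, -, h₁, h₂⟩ := g.dir hc hc'
  unfold bits at h' ⊢
  rw [← eq_of_le h₁ h, h₂.s _ _ h']

namespace Data

variable (d : Data p U α)

def M (k : ℕ) : ℕ := 4 ^ (d.F k).card + 1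

noncomputable def T (k : ℕ) : Finset ℕ := (d.F k).powerset.image (d.i k)

theorem card_T (k : ℕ) : (d.T k).card ^ 2 < d.M k := by
  have h : (d.T k).card ≤ 2 ^ (d.F k).card :=
    Finset.card_image_le.trans (Finset.card_powerset _).le
  have : (2 ^ (d.F k).card) ^ 2 = 4 ^ (d.F k).card := by
    rw [← pow_mul, mul_comm, pow_mul]; norm_num
  exact Nat.lt_succ_of_le (this ▸ Nat.pow_le_pow_left h 2)

noncomputable def idx (x : ℕ → ℕ → Prop) (m : ℕ) : ℕ := Nat.pair (lam d.T d.M x m) m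

/-- The name of the enumeration. -/
noncomputable def eN : Name Cond :=
  relN (ι := {z : ℕ × Finset (K × ℕ) × Cond // Dec α z.2.2 z.1 ∧
      z.2.1 ∈ (d.F (d.idx (bits α z.2.2) z.1)).powerset ∧
      z.2.2 ≤ (d.r (d.idx (bits α z.2.2) z.1)).fill (d.F (d.idx (bits α z.2.2) z.1)) z.2.1})
    (fun z => nN z.1.1) (fun z => d.τ (d.idx (bits α z.1.2.2) z.1.1) z.1.2.1) (fun z => z.1.2.2)

def C : Set (Name Cond) :=
  Base ∪ ({p, U, d.eN} ∪ ((⋃ k, d.τ k '' (d.F k).powerset) ∪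
    (range (fun z : ℕ × ℕ => DN α z.1 (d.M z.1) z.2) ∪
    (range (fun m => denseN {c | Dec α c m}) ∪
    range fun k => denseN {c : Cond | ∀ z ∈ d.F k, c.s z ≠ none}))))

theorem C_ctble : d.C.Countable :=
  base_ctble.union ((to_countable _).union ((countable_iUnion fun _ =>
    ((Finset.finite_toSet _).image _).countable).union ((countable_range _).union
    ((countable_range _).union (countable_range _)))))

structure OK (g : Gen Cond) : Prop where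
  q : d.q ∈ g.G
  base : Base ⊆ g.N
  p : p ∈ g.N
  U : U ∈ g.N
  e : d.eN ∈ g.N
  τ : ∀ k, ∀ σ ∈ (d.F k).powerset, d.τ k σ ∈ g.N
  D : ∀ k i, DN α k (d.M k) i ∈ g.N
  dec : ∀ m, denseN {c | Dec α c m} ∈ g.N
  dF : ∀ k, denseN {c : Cond | ∀ z ∈ d.F k, c.s z ≠ none} ∈ g.N

variable {d} {g : Gen Cond}

theorem ok_of (hq : d.q ∈ g.G) (hC : d.C ⊆ g.N) : d.OK g := by
  simp only [C, union_subset_iff, insert_subset_iff, singleton_subset_iff, image_subset_iff,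
    range_subset_iff, iUnion_subset_iff] at hC
  obtain ⟨a, ⟨b, c, e⟩, f, h, i, j⟩ := hC
  exact ⟨hq, a, b, c, e, fun k σ hσ => f k hσ, fun k i => h (k, i), i, j⟩

namespace OK

variable (h : d.OK g)
include h

theorem ultra : IsUltra g.E (g.v wN) (g.v p) := (d.forced g h.q h.p h.U (XN_mem h.base)).1

theorem omega : IsOmegaCov g.E (g.v wN) (g.v XN) (g.v U) :=
  (d.forced g h.q h.p h.U (XN_mem h.base)).2

theorem exists_dec (m : ℕ) : ∃ c ∈ g.G, Dec α c m := by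
  classical
  obtain ⟨c, h₁, h₂⟩ := meets_below (h.dec m) h.q fun t _ => by
    obtain ⟨t', a, b⟩ := Cond.exists_dec t
      ((Finset.range (m + 1) ×ˢ Finset.range m).image fun z => (α z.1, z.2))
    exact ⟨t', a, fun k hk n hn => b _ (Finset.mem_image.2 ⟨(k, n), Finset.mem_product.2
      ⟨Finset.mem_range.2 (Nat.lt_succ_of_le hk), Finset.mem_range.2 hn⟩, rfl⟩)⟩
  exact ⟨c, h₂, h₁⟩

theorem exists_sig (k : ℕ) : ∃ σ ∈ (d.F k).powerset, (d.r k).fill (d.F k) σ ∈ g.G := by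
  classical
  obtain ⟨c, h₁, h₂⟩ := meets_below (h.dF k) h.q (dec_dense _ _)
  obtain ⟨s, hs, h₃, h₄⟩ := g.dir h₂ h.q
  exact ⟨_, Finset.mem_powerset.2 (Finset.filter_subset _ _),
    g.up hs (le_fill (h₄.trans (d.hq k)) fun z hz => ne_none_of_le h₃ (h₁ z hz))⟩

noncomputable def sig (k : ℕ) : Finset (K × ℕ) := (h.exists_sig k).choose

theorem sig_mem (k : ℕ) : h.sig k ∈ (d.F k).powerset := (h.exists_sig k).choose_spec.1

theorem sig_G (k : ℕ) : (d.r k).fill (d.F k) (h.sig k) ∈ g.G := (h.exists_sig k).choose_spec.2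

theorem eq_sig {k : ℕ} {σ : Finset (K × ℕ)} (h₁ : σ ∈ (d.F k).powerset)
    (h₂ : (d.r k).fill (d.F k) σ ∈ g.G) : σ = h.sig k := by
  obtain ⟨s, -, h₃, h₄⟩ := g.dir h₂ (h.sig_G k)
  exact fill_unique (d.free k) h₁ (h.sig_mem k) h₃ h₄

noncomputable def u (k : ℕ) : g.M := g.v (d.τ k (h.sig k))

omit h in
theorem idx_eq {c : Cond} (hc : c ∈ g.G) {m : ℕ} (hd : Dec α c m) :
    d.idx (bits α c) m = d.idx (gx α g) m := by
  unfold idx
  rw [lam_congr fun k hk n hn => bits_iff hc (hd k hk n hn)]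

theorem E_e {x : g.M} :
    g.E x (g.v d.eN) ↔ ∃ m, x = pr (g.v (nN m)) (h.u (d.idx (gx α g) m)) := by
  have he := h.e
  unfold eN at he ⊢
  rw [E_relN he]
  constructor
  · rintro ⟨⟨⟨m, σ, c⟩, h₁, h₂, h₃⟩, h₄, -, -, rfl⟩
    refine ⟨m, ?_⟩
    simp only at h₁ h₂ h₃ h₄ ⊢
    rw [idx_eq h₄ h₁] at h₂ h₃ ⊢
    rw [h.eq_sig h₂ (g.up h₄ h₃)]
    rfl
  · rintro ⟨m, rfl⟩
    obtain ⟨c, hc, hd⟩ := h.exists_dec m
    obtain ⟨s, hs, h₁, h₂⟩ := g.dir hc (h.sig_G (d.idx (gx α g) m))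
    have hd' : Dec α s m := fun k hk n hn => ne_none_of_le h₁ (hd k hk n hn)
    have e := idx_eq (d := d) hs hd'
    refine ⟨⟨(m, h.sig (d.idx (gx α g) m), s), hd', ?_, ?_⟩, hs, nN_mem _, ?_, ?_⟩
    · simp only [e]; exact h.sig_mem _
    · simp only [e]; exact h₂
    · simp only [e]; exact h.τ _ _ (h.sig_mem _)
    · simp only [e]; rfl

theorem app_e {s t : g.M} :
    App g.E (g.v d.eN) s t ↔ ∃ m, s = g.v (nN m) ∧ t = h.u (d.idx (gx α g) m) := by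
  rw [app_iff, h.E_e]
  simp only [pr_inj]

theorem u_spec (k : ℕ) : g.E (h.u k) (g.v U) ∧ ∀ x, g.E x (g.v XN) →
    (∀ n, d.a k ≤ n → n < d.a (k + 1) → ¬ g.E (g.v (nN n)) x) → g.E x (h.u k) :=
  d.h1 k _ (h.sig_mem k) g (h.sig_G k) (h.τ _ _ (h.sig_mem k)) h.U (XN_mem h.base)

theorem u_inj : Function.Injective h.u := by
  have key : ∀ j k, j < k → h.u k ≠ h.u j := fun j k hjk =>
    d.h2 j k hjk _ (h.sig_mem j) _ (h.sig_mem k) g (h.sig_G k) (h.τ _ _ (h.sig_mem k))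
      (h.τ _ _ (h.sig_mem j))
  intro j k e
  rcases lt_trichotomy j k with h' | h' | h'
  exacts [absurd e.symm (key _ _ h'), h', absurd e (key _ _ h')]

theorem big_T (k : ℕ) : Big (g.v p) {m | cnt (gx α g k) m % d.M k ∈ d.T k} := by
  refine ⟨_, d.h4 k _ (h.sig_mem k) g (h.sig_G k) h.p (h.D _ _), fun m hm => ?_⟩
  obtain ⟨c, hc, h₁, h₂⟩ := (nN_locN (h.D _ _)).1 hm
  show cnt (gx α g k) m % d.M k ∈ d.T k
  rw [← cnt_congr fun n hn => bits_iff hc (h₁ n hn), h₂]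
  exact Finset.mem_image_of_mem _ (h.sig_mem k)

end OK

end Data

/-- `t` forces that `B` belongs to `p` if `p` is an ultrafilter. -/
def InU (p : Name Cond) (t : Cond) (B : Set ℕ) : Prop :=
  ∀ g : Gen Cond, t ∈ g.G → p ∈ g.N → sN B ∈ g.N → IsUltra g.E (g.v wN) (g.v p) →
    g.E (g.v (sN B)) (g.v p)

theorem InU.mono (t t' : Cond) (B : Set ℕ) (ht : t' ≤ t) (h : InU p t B) : InU p t' B :=
  fun g hg => h g (g.up hg ht)

theorem inU_dense (p : Name Cond) (r : Cond) (B : Set ℕ) : ∃ u ≤ r, InU p u B ∨ InU p u Bᶜ := by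
  obtain ⟨g, hg, hC⟩ := exists_gen r {p, sN B, sN Bᶜ} (to_countable _)
  simp only [insert_subset_iff, singleton_subset_iff] at hC
  obtain ⟨hp, h₁, h₂⟩ := hC
  have key : ∀ S : Set ℕ, sN S ∈ g.N → (IsUltra g.E (g.v wN) (g.v p) → g.E (g.v (sN S)) (g.v p)) →
      ∃ u ≤ r, InU p u S := by
    intro S hS H
    obtain ⟨t, ht, H'⟩ := transfer (Ψ := fun _ E w => IsUltra E (w 0) (w 1) → E (w 2) (w 1))
      ((UD.isUltra _ _).imp (UDef.mem _ _)) (l3 wN_mem hp hS) H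
    obtain ⟨s, -, a₁, a₂⟩ := g.dir ht hg
    exact ⟨s, a₂, fun g' b₁ b₂ b₃ => H' g' (g'.up b₁ a₁) (l3 wN_mem b₂ b₃)⟩
  by_cases h : IsUltra g.E (g.v wN) (g.v p) → g.E (g.v (sN B)) (g.v p)
  · exact (key B h₁ h).imp fun u hu => ⟨hu.1, Or.inl hu.2⟩
  · refine (key Bᶜ h₂ fun hu => ?_).imp fun u hu => ⟨hu.1, Or.inr hu.2⟩
    refine ((big_or hu (sN_sub h₁)).resolve_left fun e => h fun _ => e).mem hu (sN_sub h₂) ?_
    exact fun n hn => (nN_sN h₂).2 fun e => hn ((nN_sN h₁).2 e)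

theorem inner (d : Data p U α) (inj : Function.Injective α)
    (hα : ∀ t B, ∃ t' ≤ t, (InU p t' B ∨ InU p t' Bᶜ) ∧ ∀ i n, t'.s (α i, n) = t.s (α i, n))
    {y : Set ℕ} {t : Cond} (ht : t ≤ d.q) (hy : y ∈ t.Y) :
    ∃ t' ≤ t, ∃ C : Set (Name Cond), C.Countable ∧ ∀ g : Gen Cond, t' ∈ g.G → C ⊆ g.N →
      sN y ∈ g.N → ∃ b, g.E b (g.v p) ∧
        ∀ n, g.E n b ↔ ∃ u, App g.E (g.v d.eN) n u ∧ g.E (g.v (sN y)) u := by
  have h₀ : ∃ (i₀ : ℕ) (f : ℕ → ℕ), ∀ i ≥ i₀, ∀ m ≥ f i, y ∈ d.LY (Nat.pair i m) ∨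
      ∀ n ∈ y, d.a (Nat.pair i m) ≤ n → d.a (Nat.pair i m + 1) ≤ n := by
    by_cases h : y ∈ d.q.Y
    · obtain ⟨j, hj⟩ := eventually_atTop.1 (d.hLY y h)
      exact ⟨0, fun _ => j, fun i _ m hm => Or.inl (hj _ (hm.trans (Nat.right_le_pair i m)))⟩
    · obtain ⟨i₀, f, H⟩ := good_blocks d.ha (ht.good y hy h _ d.hc)
      exact ⟨i₀, f, fun i hi m hm => Or.inr (H i hi m hm)⟩
  obtain ⟨i₀, f, H⟩ := h₀
  obtain ⟨t', h₁, B, b₀, h₂, h₃⟩ := shift inj (InU p) InU.mono t (hα t) d.T d.M d.card_T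
    fun l => (Finset.range (l + 1)).sup f
  refine ⟨t', h₁, insert (sN B) d.C, d.C_ctble.insert _, fun g hg hC hyN => ?_⟩
  obtain ⟨hB, hC⟩ := insert_subset_iff.1 hC
  have h := Data.ok_of (g.up hg (h₁.trans ht)) hC
  have hu := h.ultra
  have hX : g.E (g.v (sN y)) (g.v XN) :=
    (E_XN (XN_mem h.base)).2 ⟨y, ⟨t, g.up hg h₁, hy⟩, hyN, rfl⟩
  obtain ⟨b, hb⟩ := sep_udef (Ψ := fun _ E w => ∃ u, App E (w 1) (w 0) u ∧ E (w 2) u)
    (UDef.ex ((UDef.app _ _ _).and (UDef.mem _ _))) [g.v d.eN, g.v (sN y)] (g.v wN)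
  have hb' : ∀ n, g.E n b ↔ g.E n (g.v wN) ∧
      ∃ u, App g.E (g.v d.eN) n u ∧ g.E (g.v (sN y)) u := hb
  refine ⟨b, ?_, fun n => (hb' n).trans (and_iff_right_of_imp ?_)⟩
  · have hbig : Big (g.v p) B := ⟨_, h₂ g hg h.p hB hu, fun n => (nN_sN hB).1⟩
    refine (((hbig.inter hu (big_ge hu b₀)).inter hu (big_ge hu i₀)).inter hu
      (big_biInter hu (finite_Iio i₀) fun k _ => h.big_T k)).mem hu
      (fun n hn => ((hb' n).1 hn).1) ?_
    rintro m ⟨⟨⟨a₁, a₂⟩, a₃⟩, a₄⟩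
    obtain ⟨l, c₁, c₂, c₃⟩ := h₃ m a₁ a₂
    rw [cnt_congr fun n hn => bits_iff hg (c₂ n hn)] at c₃
    have e₁ : lam d.T d.M (gx α g) m ≤ l := lam_le c₃
    have e₂ : i₀ ≤ lam d.T d.M (gx α g) m := le_lam a₃ a₄
    have e₃ : f (lam d.T d.M (gx α g) m) ≤ m :=
      (Finset.le_sup (f := f) (Finset.mem_range.2 (Nat.lt_succ_of_le e₁))).trans c₁
    refine (hb' _).2 ⟨nN_wN m, _, h.app_e.2 ⟨m, rfl, rfl⟩, ?_⟩
    rcases H _ e₂ m e₃ with H' | H'
    · exact d.h3 _ _ (h.sig_mem _) y H' g (h.sig_G _) (h.τ _ _ (h.sig_mem _)) hyN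
    · exact (h.u_spec _).2 _ hX fun n b₁ b₂ b₃ => (H' n ((nN_sN hyN).1 b₃) b₁).not_gt b₂
  · rintro ⟨u, hu, -⟩
    obtain ⟨m, rfl, -⟩ := h.app_e.1 hu
    exact nN_wN m

theorem pcov (d : Data p U α) (inj : Function.Injective α)
    (hα : ∀ t B, ∃ t' ≤ t, (InU p t' B ∨ InU p t' Bᶜ) ∧ ∀ i n, t'.s (α i, n) = t.s (α i, n))
    {g : Gen Cond} (h : d.OK g) :
    ∃ V, Sub g.E V (g.v U) ∧ IsPCov g.E (g.v wN) (g.v p) (g.v XN) V := by
  obtain ⟨V, hV⟩ := sep_udef (Ψ := fun _ E w => ∃ n, App E (w 1) n (w 0))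
    (UDef.ex (UDef.app _ _ _)) [g.v d.eN] (g.v U)
  have hV' : ∀ u, g.E u V ↔ g.E u (g.v U) ∧ ∃ n, App g.E (g.v d.eN) n u := hV
  have huV : ∀ m, g.E (h.u (d.idx (gx α g) m)) V := fun m =>
    (hV' _).2 ⟨(h.u_spec _).1, _, h.app_e.2 ⟨m, rfl, rfl⟩⟩
  have main : ∀ x, g.E x (g.v XN) → ∃ b, g.E b (g.v p) ∧
      ∀ n, g.E n b ↔ ∃ u, App g.E (g.v d.eN) n u ∧ g.E x u := by
    intro x hx
    obtain ⟨y, ⟨c, hc, hy⟩, hyN, rfl⟩ := (E_XN (XN_mem h.base)).1 hx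
    refine dens (Ψ := fun _ E w => ∃ b, E b (w 0) ∧ ∀ n, E n b ↔ ∃ u, App E (w 1) n u ∧ E (w 2) u)
      (by
        repeat' first
          | exact UDef.mem _ _ | exact UDef.app _ _ _ | apply UDef.and | apply UDef.iff
          | apply UDef.all | apply UDef.ex) (l3 h.p h.e hyN) fun r hr => ?_
    obtain ⟨s, hs, a₁, a₂⟩ := g.dir hr hc
    obtain ⟨t, -, a₃, a₄⟩ := g.dir hs h.q
    obtain ⟨t', a₅, C, hC, H⟩ := inner d inj hα a₄ ((a₃.trans a₂).Y hy)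
    exact ⟨t', a₅.trans (a₃.trans a₁), C, hC, fun g' b₁ b₂ b₃ => H g' b₁ b₂ (b₃ _ (by simp))⟩
  refine ⟨V, fun u hu => ((hV' u).1 hu).1, ⟨fun u hu => h.omega.1.1 u ((hV' u).1 hu).1,
    fun x hx => ?_⟩, g.v d.eN, ⟨⟨fun z hz => ?_, fun n hn => ?_⟩, fun n n' u h₁ h₂ => ?_⟩,
    fun u hu => ((hV' u).1 hu).2, main⟩
  · obtain ⟨b, h₁, h₂⟩ := main x hx
    obtain ⟨n, hn⟩ := (h.ultra.1 b h₁).2
    obtain ⟨u, h₃, h₄⟩ := (h₂ n).1 hn
    obtain ⟨m, -, rfl⟩ := h.app_e.1 h₃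
    exact ⟨_, huV m, h₄⟩
  · obtain ⟨m, rfl⟩ := h.E_e.1 hz
    exact ⟨_, _, nN_wN m, huV m, isPair_pr _ _⟩
  · obtain ⟨m, rfl⟩ := E_wN.1 hn
    refine ⟨_, h.app_e.2 ⟨m, rfl, rfl⟩, fun u hu => ?_⟩
    obtain ⟨m', e, rfl⟩ := h.app_e.1 hu
    rw [nN_inj e]
  · obtain ⟨m, rfl, rfl⟩ := h.app_e.1 h₁
    obtain ⟨m', rfl, e⟩ := h.app_e.1 h₂
    rw [(Nat.pair_eq_pair.1 (h.u_inj e)).2]

theorem gamma_p {g : Gen Cond} (h : Base ⊆ g.N) (p : g.M) (hp : IsUltra g.E (g.v wN) p) (U : g.M)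
    (hU : IsOmegaCov g.E (g.v wN) (g.v XN) U) :
    ∃ V, Sub g.E V U ∧ IsPCov g.E (g.v wN) p (g.v XN) V := by
  obtain ⟨p, hpN, rfl⟩ := exists_v p
  obtain ⟨U, hUN, rfl⟩ := exists_v U
  obtain ⟨r₀, hr₀, H⟩ := transfer
    (Ψ := fun _ E w => IsUltra E (w 0) (w 1) ∧ IsOmegaCov E (w 0) (w 2) (w 3))
    ((UD.isUltra _ _).and (UD.isOmegaCov _ _ _)) (l4 wN_mem hpN (XN_mem h) hUN) ⟨hp, hU⟩
  obtain ⟨α, inj, hα⟩ := indep (InU p) InU.mono (inU_dense p)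
  refine dens (Ψ := fun _ E w => ∃ V, Sub E V (w 3) ∧ IsPCov E (w 0) (w 1) (w 2) V)
    (UDef.ex ((UD.sub _ _).and (UD.isPCov _ _ _ _))) (l4 wN_mem hpN (XN_mem h) hUN)
    fun r hr => ?_
  obtain ⟨s, -, a₁, a₂⟩ := g.dir hr hr₀
  obtain ⟨d, hd⟩ := exists_data (p := p) (U := U) (r₀ := s)
    (fun g' b₁ b₂ b₃ b₄ => H g' (g'.up b₁ a₂) (l4 wN_mem b₂ b₄ b₃)) α
  exact ⟨d.q, hd.trans a₁, d.C, d.C_ctble, fun g' b₁ b₂ _ => pcov d inj hα (Data.ok_of b₁ b₂)⟩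

theorem main : ∃ (M : Type 1) (E : M → M → Prop), IsZFC E ∧ ∃ w X : M,
    IsOmega E w ∧ (∀ x, E x X → Sub E x w) ∧ ¬ IsFin E w X ∧
    (∀ p, IsUltra E w p → ∀ U, IsOmegaCov E w X U → ∃ V, Sub E V U ∧ IsPCov E w p X V) ∧
    ¬ ∀ U, IsOmegaCov E w X U → ∃ V, Sub E V U ∧ IsGammaCov E w X V := by
  obtain ⟨g, -, h⟩ := exists_gen (⊤ : Cond) Base base_ctble
  refine ⟨g.M, g.E, g.isZFC, g.v wN, g.v XN, isOmega, X_sub (XN_mem h), X_inf h, gamma_p h,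
    fun H => ?_⟩
  obtain ⟨V, hV⟩ := H _ (U0_omega h)
  exact not_gamma h V hV

end Pool.Agent.MP_e258b5_gt

end
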